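import Pool.Agent.H867R5.TL.Stubs

set_option autoImplicit false

/-! Alternating sums in the free group vanish. -/

namespace Pool.Agent.H867R5.TL

open Pool.Agent.H891R2.Jones Pool.Agent.H832R3.VJ

namespace TALG

theorem perm_append {m : ℕ} (a b : List (Letter m)) : perm (a ++ b) = perm a * perm b := by
  simp [perm]

theorem permG_mk {m : ℕ} (w : List (Letter m)) : permG (FreeGroup.mk w) = perm w := by
  induction w with
  | nil =>
    rw [← FreeGroup.one_eq_mk, map_one]
    simp [perm]
  | cons x w ih =>
    have h1 : (FreeGroup.mk (x :: w) : FreeGroup (Fin m)) =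
        FreeGroup.mk [x] * FreeGroup.mk w := by
      rw [FreeGroup.mul_mk]
      rfl
    rw [h1, map_mul, ih]
    have h2 : perm (x :: w) = Equiv.swap x.1.castSucc x.1.succ * perm w := by
      simp [perm]
    rw [h2]
    congr 1
    obtain ⟨i, s⟩ := x
    cases s with
    | true => simp [permG, FreeGroup.lift_mk]
    | false => simp [permG, FreeGroup.lift_mk]

theorem permG_of {m : ℕ} (i : Fin m) :
    permG (FreeGroup.of i) = Equiv.swap i.castSucc i.succ := by
  simp [permG]

theorem permG_inv {m : ℕ} (i : Fin m) :
    permG (FreeGroup.of i)⁻¹ = Equiv.swap i.castSucc i.succ := by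
  simp [permG]

/-- the permutation of the whole product -/
def tot {m : ℕ} (S : List (FreeGroup (Fin m) × Fin m)) : Equiv.Perm (Fin (m + 1)) :=
  (S.map fun t => permG t.1 * Equiv.swap t.2.castSucc t.2.succ).prod

theorem zero {m : ℕ} (v : Dia → ℤ) (O : Box m) :
    ∀ (S : List (FreeGroup (Fin m) × Fin m)) (h g : FreeGroup (Fin m)),
      permG h * tot S * permG g ≠ 1 → altG v O h S g = 0 := by
  intro S
  induction S with
  | nil =>
    intro h g hne
    unfold altG phi
    rw [if_neg]
    intro h1
    apply hne
    rw [map_mul] at h1
    simpa [tot] using h1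
  | cons t S ih =>
    intro h g hne
    unfold altG
    have e : permG h * tot (t :: S) * permG g =
        permG h * permG t.1 * Equiv.swap t.2.castSucc t.2.succ * tot S * permG g := by
      simp only [tot, List.map_cons, List.prod_cons, mul_assoc]
    rw [ih (h * t.1 * FreeGroup.of t.2) g, ih (h * t.1 * (FreeGroup.of t.2)⁻¹) g, sub_zero]
    · rw [map_mul, map_mul, permG_inv, ← e]
      exact hne
    · rw [map_mul, map_mul, permG_of, ← e]
      exact hne

theorem pushList_append {m : ℕ} (O : Box m) (a b : List (Letter m)) :
    (O.pushList a).pushList b = O.pushList (a ++ b) := by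
  simp only [Box.pushList, List.foldl_append]

theorem push_eq {m : ℕ} (O : Box m) (x : Letter m) : O.push x = O.pushList [x] := rfl

theorem eqn (hW : S_WRD) {m : ℕ} (v : Dia → ℤ) (hv : Invariant v) (O : Box m)
    (hO : O.close.IsLink) :
    ∀ (S : List (FreeGroup (Fin m) × Fin m)) (u : List (Letter m)) (g : FreeGroup (Fin m)),
      permG (FreeGroup.mk u) * tot S * permG g = 1 →
      altG v O (FreeGroup.mk u) S g =
        alt v (O.pushList u) (S.map fun t => (t.1.toWord, t.2)) g.toWord := by
  intro S
  induction S with
  | nil =>
    intro u g h1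
    simp only [altG, List.map_nil, alt]
    rw [pushList_append]
    have hg : g = FreeGroup.mk g.toWord := FreeGroup.mk_toWord.symm
    have hp : perm (u ++ g.toWord) = 1 := by
      rw [perm_append, ← permG_mk, ← permG_mk, FreeGroup.mk_toWord]
      simpa [tot] using h1
    rw [(hW m v hv O hO _ hp).2, ← FreeGroup.mul_mk, FreeGroup.mk_toWord]
  | cons t S ih =>
    intro u g h1
    simp only [altG, List.map_cons, alt]
    have e : permG (FreeGroup.mk u) * tot (t :: S) * permG g =
        permG (FreeGroup.mk u) * permG t.1 * Equiv.swap t.2.castSucc t.2.succ * tot S * permG g := by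
      simp only [tot, List.map_cons, List.prod_cons, mul_assoc]
    rw [e] at h1
    have k1 : FreeGroup.mk u * t.1 * FreeGroup.of t.2 =
        FreeGroup.mk (u ++ t.1.toWord ++ [(t.2, true)]) := by
      rw [← FreeGroup.mul_mk, ← FreeGroup.mul_mk, FreeGroup.mk_toWord]
      rfl
    have k2 : FreeGroup.mk u * t.1 * (FreeGroup.of t.2)⁻¹ =
        FreeGroup.mk (u ++ t.1.toWord ++ [(t.2, false)]) := by
      rw [← FreeGroup.mul_mk, ← FreeGroup.mul_mk, FreeGroup.mk_toWord]
      rfl
    have q1 : ((O.pushList u).pushList t.1.toWord).push (t.2, true) =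
        O.pushList (u ++ t.1.toWord ++ [(t.2, true)]) := by
      rw [push_eq, pushList_append, pushList_append, List.append_assoc]
    have q2 : ((O.pushList u).pushList t.1.toWord).push (t.2, false) =
        O.pushList (u ++ t.1.toWord ++ [(t.2, false)]) := by
      rw [push_eq, pushList_append, pushList_append, List.append_assoc]
    rw [q1, q2, k1, k2, ih, ih]
    · rw [← k2, map_mul, map_mul, permG_inv]
      exact h1
    · rw [← k1, map_mul, map_mul, permG_of]
      exact h1

theorem permW {m : ℕ} (S : List (FreeGroup (Fin m) × Fin m)) :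
    perm ((S.map fun t => (t.1.toWord, t.2)).flatMap
      (fun t : List (Letter m) × Fin m => t.1 ++ [((t.2, true) : Letter m)])) = tot S := by
  induction S with
  | nil => simp [perm, tot]
  | cons t S ih =>
    rw [List.map_cons, List.flatMap_cons, perm_append, ih, perm_append, ← permG_mk,
      FreeGroup.mk_toWord]
    simp [tot, perm]

end TALG

open TALG in
theorem t_ALG (h1 : S_SNG) (h2 : S_WRD) (_h3 : S_CLO) : S_ALG := by
  intro m d v hv O hO S h g hS
  by_cases hp : permG h * tot S * permG g = 1
  · have e := eqn h2 v hv.1 O hO S h.toWord g (by rw [FreeGroup.mk_toWord]; exact hp)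
    rw [FreeGroup.mk_toWord] at e
    rw [e]
    cases S with
    | nil => simp at hS
    | cons t S =>
      have key := h1 m d v hv O ((h.toWord ++ t.1.toWord, t.2) ::
        S.map fun t => (t.1.toWord, t.2)) g.toWord hO (by simpa using hS) (by
          rw [List.flatMap_cons, perm_append, perm_append, permW, perm_append, perm_append,
            ← permG_mk h.toWord, ← permG_mk t.1.toWord, ← permG_mk g.toWord, FreeGroup.mk_toWord,
            FreeGroup.mk_toWord, FreeGroup.mk_toWord]
          have e2 : permG h * tot (t :: S) * permG g =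
              permG h * permG t.1 * Equiv.swap t.2.castSucc t.2.succ * tot S * permG g := by
            simp only [tot, List.map_cons, List.prod_cons, mul_assoc]
          rw [e2] at hp
          simpa [perm] using hp)
      rw [← key]
      simp only [List.map_cons, alt]
      rw [pushList_append]
  · exact zero v O S h g hp

end Pool.Agent.H867R5.TL
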