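import Pool.Agent.H867R5.TL.Stubs

set_option autoImplicit false

namespace Pool.Agent.H867R5.TL

open Pool.Agent.H891R2.Jones Pool.Agent.H832R3.VJ

namespace TBAS

variable {P Q : Type}

/-- closed diagrams in terms of counts -/
theorem closed_of_perm [DecidableEq P] {D D' : Diagram P} (h : D.starts.Perm D'.starts)
    (h' : D.ends.Perm D'.ends) (hc : D.IsClosed) : D'.IsClosed := by
  intro p
  rw [← h.count_eq, ← h'.count_eq]
  exact hc p

theorem link_of_perm {hP : Finite P} {D D' : Diagram P} (h : D.starts.Perm D'.starts)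
    (h' : D.ends.Perm D'.ends) (hc : Dia.IsLink ⟨P, hP, D⟩) : Dia.IsLink ⟨P, hP, D'⟩ := by
  classical
  exact ⟨hc.1, closed_of_perm h h' hc.2⟩

theorem starts_perm {A A' : List (P × P)} {C C' : List (Crossing P)} (h : A.Perm A')
    (h' : C.Perm C') : (Diagram.starts ⟨A, C⟩).Perm (Diagram.starts ⟨A', C'⟩) :=
  ((h.map _).append (h'.map _)).append (h'.map _)

theorem ends_perm {A A' : List (P × P)} {C C' : List (Crossing P)} (h : A.Perm A')
    (h' : C.Perm C') : (Diagram.ends ⟨A, C⟩).Perm (Diagram.ends ⟨A', C'⟩) :=
  ((h.map _).append (h'.map _)).append (h'.map _)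

theorem closed_map [DecidableEq P] [DecidableEq Q] (e : P ≃ Q) (D : Diagram P)
    (hc : D.IsClosed) : (mapD e D).IsClosed := by
  have h1 : (mapD e D).starts = D.starts.map e := by
    simp only [Diagram.starts, mapD, List.map_append, List.map_map]
    congr 2
    · congr 1
      funext x
      simp only [Function.comp, Crossing.map]
      split <;> rfl
    · funext x
      simp only [Function.comp, Crossing.map]
      split <;> rfl
  have h2 : (mapD e D).ends = D.ends.map e := by
    simp only [Diagram.ends, mapD, List.map_append, List.map_map]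
    congr 2
    · congr 1
      funext x
      simp only [Function.comp, Crossing.map]
      split <;> rfl
    · funext x
      simp only [Function.comp, Crossing.map]
      split <;> rfl
  intro q
  obtain ⟨p, rfl⟩ := e.surjective q
  rw [h1, h2, List.count_map_of_injective _ _ e.injective, List.count_map_of_injective _ _ e.injective]
  exact hc p

end TBAS

theorem t_ORD : S_ORD := by
  intro P hP A A' C C' hA hC hX
  have hY : Dia.IsLink ⟨P, hP, ⟨A', C'⟩⟩ :=
    TBAS.link_of_perm (TBAS.starts_perm hA hC) (TBAS.ends_perm hA hC) hX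
  exact ⟨hY, fun v hv => hv _ _ hX hY (Move.order hP _ _ hA hC)⟩

theorem t_TRN : S_TRN := by
  intro P hP A x C hX
  have hY : Dia.IsLink ⟨P, hP, ⟨A, turn x :: C⟩⟩ := by
    refine TBAS.link_of_perm ?_ ?_ hX
    · apply List.Perm.of_eq
      simp only [Diagram.starts, List.map_cons, turn]
      cases x.underFwd <;> cases x.overFwd <;> rfl
    · apply List.Perm.of_eq
      simp only [Diagram.ends, List.map_cons, turn]
      cases x.underFwd <;> cases x.overFwd <;> rfl
  exact ⟨hY, fun v hv => hv _ _ hX hY (Move.turn hP ⟨A, C⟩ x)⟩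

theorem t_REL : S_REL := by
  intro P Q hP hQ e D hX
  classical
  have hY : Dia.IsLink ⟨Q, hQ, mapD e D⟩ := by
    refine ⟨hX.1.map e, ?_⟩
    have := TBAS.closed_map e D hX.2
    convert this
  exact ⟨hY, fun v hv => hv _ _ hX hY (Move.relabel hP hQ e D)⟩

end Pool.Agent.H867R5.TL
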