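import Pool.Agent.H867R5.TL.Stubs

set_option autoImplicit false

/-! Task CNB (helper227): contraction is compatible with drawing a word and closing. -/

namespace Pool.Agent.H867R5.TL

open Pool.Agent.H891R2.Jones Pool.Agent.H832R3.VJ

namespace TCNB

theorem leads_trans {X Y Z : Dia} (h : Leads X Y) (h' : Leads Y Z) : Leads X Z := by
  intro hX
  obtain ⟨hY, h1⟩ := h hX
  obtain ⟨hZ, h2⟩ := h' hY
  exact ⟨hZ, fun v hv => (h1 v hv).trans (h2 v hv)⟩

theorem map_arc {P Q : Type} (g : P → Q) (f : Bool) (p q : P) :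
    Prod.map g g (arc f p q) = arc f (g p) (g q) := by
  cases f <;> rfl

theorem map_cross {P Q : Type} (g : P → Q) (ov : Bool) (ll lr ul ur : P) (f f' : Bool) :
    Crossing.map g (cross ov ll lr ul ur f f') = cross ov (g ll) (g lr) (g ul) (g ur) f f' := by
  cases ov <;> rfl

theorem map_map_cr {P Q R : Type} (g : P → Q) (h : Q → R) (x : Crossing P) :
    Crossing.map h (Crossing.map g x) = Crossing.map (fun a => h (g a)) x := rfl

theorem con_push {m : ℕ} {B B' : Box m} (h : ConB B B') (x : Letter m) :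
    ConB (B.push x) (B'.push x) := by
  obtain ⟨g, p, z, f, A, h1, h2, h3, h4, h5, h6, h7, h8, h9, h10⟩ := h
  refine ⟨Sum.map g id, Sum.inl p, Sum.inl z, f, A.map (Prod.map Sum.inl Sum.inl), ?_, ?_, ?_,
    ?_, ?_, ?_, ?_, ?_, ?_, ?_⟩
  · have := h1.map (Prod.map (Sum.inl : B.P → B.P ⊕ Bool) (Sum.inl : B.P → B.P ⊕ Bool))
    rw [List.map_cons, map_arc] at this
    exact this
  · have h := h2.map (Prod.map (Sum.inl : B'.P → B'.P ⊕ Bool) (Sum.inl : B'.P → B'.P ⊕ Bool))
    have e : (A.map (Prod.map (Sum.inl : B.P → B.P ⊕ Bool) (Sum.inl : B.P → B.P ⊕ Bool))).map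
        (Prod.map (Sum.map g id) (Sum.map g id)) =
        (A.map (Prod.map g g)).map
          (Prod.map (Sum.inl : B'.P → B'.P ⊕ Bool) (Sum.inl : B'.P → B'.P ⊕ Bool)) := by
      rw [List.map_map, List.map_map]
      rfl
    have h' : (B'.arcs.map (Prod.map (Sum.inl : B'.P → B'.P ⊕ Bool)
        (Sum.inl : B'.P → B'.P ⊕ Bool))).Perm
        ((A.map (Prod.map (Sum.inl : B.P → B.P ⊕ Bool) (Sum.inl : B.P → B.P ⊕ Bool))).map
        (Prod.map (Sum.map g id) (Sum.map g id))) := e ▸ h
    exact h'
  · have h := h3.map (Crossing.map (Sum.inl : B'.P → B'.P ⊕ Bool))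
    have e1 : Crossing.map (Sum.map g id) (B.newCrossing x) = B'.newCrossing x := by
      unfold Box.newCrossing
      rw [map_cross, h4, h4, h6]
      rfl
    have e2 : (B.crossings.map (Crossing.map (Sum.inl : B.P → B.P ⊕ Bool))).map
        (Crossing.map (Sum.map g id)) =
        (B.crossings.map (Crossing.map g)).map (Crossing.map (Sum.inl : B'.P → B'.P ⊕ Bool)) := by
      rw [List.map_map, List.map_map]
      rfl
    have h' : (B'.newCrossing x :: B'.crossings.map (Crossing.map Sum.inl)).Perm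
      ((B.newCrossing x :: B.crossings.map (Crossing.map Sum.inl)).map
        (Crossing.map (Sum.map g id))) := by
      rw [List.map_cons, e1, e2]
      exact h.cons _
    exact h'
  · intro j
    show (if j = x.1.castSucc then (Sum.inr false : B'.P ⊕ Bool) else
      if j = x.1.succ then Sum.inr true else Sum.inl (B'.lower j)) =
      Sum.map g id (if j = x.1.castSucc then (Sum.inr false : B.P ⊕ Bool) else
        if j = x.1.succ then Sum.inr true else Sum.inl (B.lower j))
    split_ifs
    · rfl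
    · rfl
    · rw [h4]; rfl
  · intro j
    show (Sum.inl (B'.upper j) : B'.P ⊕ Bool) = Sum.map g id (Sum.inl (B.upper j))
    rw [h5]; rfl
  · show (fun j => B'.up (Equiv.swap x.1.castSucc x.1.succ j)) =
      fun j => B.up (Equiv.swap x.1.castSucc x.1.succ j)
    rw [h6]
  · intro h
    exact h7 (Sum.inl.inj h)
  · show (Sum.inl (g z) : B'.P ⊕ Bool) = Sum.inl (g p)
    rw [h8]
  · rintro (a | b)
    · obtain ⟨a', rfl⟩ := h9 a
      exact ⟨Sum.inl a', rfl⟩
    · exact ⟨Sum.inr b, rfl⟩
  · rintro (a | a) (b | b) hab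
    · have hab' : g a = g b := Sum.inl.inj hab
      rcases h10 a b hab' with h | ⟨h, h'⟩ | ⟨h, h'⟩
      · exact Or.inl (congrArg Sum.inl h)
      · exact Or.inr (Or.inl ⟨congrArg Sum.inl h, congrArg Sum.inl h'⟩)
      · exact Or.inr (Or.inr ⟨congrArg Sum.inl h, congrArg Sum.inl h'⟩)
    · exact absurd hab Sum.inl_ne_inr
    · exact absurd hab Sum.inr_ne_inl
    · exact Or.inl (congrArg Sum.inr (Sum.inr.inj hab))

theorem con_close (hCON : S_CON) (hORD : S_ORD) {m : ℕ} {B B' : Box m} (h : ConB B B') :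
    Leads B.close B'.close := by
  obtain ⟨g, p, z, f, A, h1, h2, h3, h4, h5, h6, h7, h8, h9, h10⟩ := h
  have s1 : Leads B.close ⟨B.P, B.fin, ⟨arc f p z :: (B.closing ++ A), B.crossings⟩⟩ := by
    refine hORD B.P B.fin _ _ _ _ ?_ (List.Perm.refl _)
    exact (h1.append_left _).trans List.perm_middle
  have s2 : Leads ⟨B.P, B.fin, ⟨arc f p z :: (B.closing ++ A), B.crossings⟩⟩
      ⟨B'.P, B'.fin, ⟨(B.closing ++ A).map (Prod.map g g), B.crossings.map (Crossing.map g)⟩⟩ :=
    hCON B.P B'.P B.fin B'.fin g p z f _ _ h7 h8 h9 h10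
  have s3 : Leads ⟨B'.P, B'.fin,
      ⟨(B.closing ++ A).map (Prod.map g g), B.crossings.map (Crossing.map g)⟩⟩ B'.close := by
    refine hORD B'.P B'.fin _ _ _ _ ?_ h3.symm
    have e : B.closing.map (Prod.map g g) = B'.closing := by
      unfold Box.closing
      rw [List.map_map]
      refine List.map_congr_left fun j _ => ?_
      show Prod.map g g (arc (B.up j) (B.lower j) (B.upper j)) =
        arc (B'.up j) (B'.lower j) (B'.upper j)
      rw [map_arc, h4, h5, h6]
    rw [List.map_append, e]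
    exact (h2.symm).append_left _
  exact leads_trans s1 (leads_trans s2 s3)

end TCNB

open TCNB in
theorem t_CNB (hCON : S_CON) (hORD : S_ORD) : S_CNB := by
  intro m B B' h w
  induction w generalizing B B' with
  | nil => exact con_close hCON hORD h
  | cons x w ih => exact ih (B.push x) (B'.push x) (con_push h x)

end Pool.Agent.H867R5.TL
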