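import Pool.Agent.H867R5.TL.Stubs

set_option autoImplicit false

namespace Pool.Agent.H867R5.TL

open Pool.Agent.H891R2.Jones Pool.Agent.H832R3.VJ

theorem t_CNT : S_CNT := by
  classical
  intro k p N M hp hN
  set S : Finset ℚ := (Finset.Icc (-(M : ℤ)) M).image (fun z : ℤ => (z : ℚ)) with hS
  have hcard : S.card = 2 * M + 1 := by
    rw [hS, Finset.card_image_of_injective _ Int.cast_injective, Int.card_Icc]
    omega
  have hsz := MvPolynomial.schwartz_zippel_totalDegree hp S
  set F : Finset (Fin k → ℚ) := {f ∈ Fintype.piFinset fun _ => S | MvPolynomial.eval f p = 0}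
    with hF
  have hle : {n : Fin k → ℤ | (∀ j, |n j| ≤ M) ∧
      MvPolynomial.eval (fun j => (n j : ℚ)) p = 0}.ncard ≤ F.card := by
    rw [← Set.ncard_coe_finset F]
    refine Set.ncard_le_ncard_of_injOn (fun n j => (n j : ℚ)) ?_ ?_ (Finset.finite_toSet F)
    · intro n hn
      rw [Finset.mem_coe, hF, Finset.mem_filter, Fintype.mem_piFinset]
      refine ⟨fun j => ?_, hn.2⟩
      rw [hS, Finset.mem_image]
      exact ⟨n j, Finset.mem_Icc.2 (abs_le.1 (hn.1 j)), rfl⟩
    · intro a _ b _ hab
      funext j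
      exact Int.cast_injective (congrFun hab j)
  refine hle.trans ?_
  have hpos : (0 : ℚ≥0) < (S.card : ℚ≥0) := by rw [hcard]; positivity
  have h1 : (F.card : ℚ≥0) ≤ p.totalDegree / S.card * S.card ^ k := by
    rwa [div_le_iff₀ (by positivity)] at hsz
  have h2 : (F.card : ℚ≥0) * S.card ≤ N * S.card ^ k := by
    calc (F.card : ℚ≥0) * S.card ≤ p.totalDegree / S.card * S.card ^ k * S.card := by gcongr
      _ = p.totalDegree * S.card ^ k := by field_simp
      _ ≤ N * S.card ^ k := by gcongr
  have h3 : F.card * S.card ≤ N * S.card ^ k := by exact_mod_cast h2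
  rw [hcard] at h3
  rcases Nat.eq_zero_or_pos k with hk | hk
  · subst hk
    simp only [pow_zero, mul_one] at h3 ⊢
    calc F.card ≤ F.card * (2 * M + 1) := Nat.le_mul_of_pos_right _ (by omega)
      _ ≤ N := h3
      _ ≤ N * (2 * M + 1) ^ (0 - 1) := by simp
  · have h4 : (2 * M + 1) ^ k = (2 * M + 1) ^ (k - 1) * (2 * M + 1) := by
      rw [← pow_succ]; congr 1; omega
    rw [h4, ← mul_assoc] at h3
    exact Nat.le_of_mul_le_mul_right h3 (by omega)

end Pool.Agent.H867R5.TL
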