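import Pool.Agent.H867R5.TL.Stubs

set_option autoImplicit false

namespace Pool.Agent.H867R5.TL

open Pool.Agent.H891R2.Jones Pool.Agent.H832R3.VJ

namespace TCON

theorem leads_trans {X Y Z : Dia} (h1 : Leads X Y) (h2 : Leads Y Z) : Leads X Z :=
  fun hX => ⟨(h2 (h1 hX).1).1, fun v hv => ((h1 hX).2 v hv).trans ((h2 (h1 hX).1).2 v hv)⟩

theorem conclude {X X1 Y Y1 : Dia} (hX : X.IsLink) (hY : Y.IsLink) (h1 : Leads X X1)
    (h2 : Leads Y Y1) (h3 : Move Y1 X1) : ∀ v, Invariant v → v X = v Y := by
  intro v hv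
  rw [(h1 hX).2 v hv, (h2 hY).2 v hv]
  exact (hv _ _ (h2 hY).1 (h1 hX).1 h3).symm

section
variable {P : Type}

/-- the start (`f = true`) or end of an arc -/
def aE (f : Bool) (w : P × P) : P := if f then w.1 else w.2
/-- the start (`f = true`) or end of the under-strand -/
def uE (f : Bool) (x : Crossing P) : P := if x.underFwd = f then x.a else x.c
/-- the start (`f = true`) or end of the over-strand -/
def oE (f : Bool) (x : Crossing P) : P := if x.overFwd = f then x.b else x.d
/-- all starts (`f = true`) or ends -/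
def pts (f : Bool) (A : List (P × P)) (C : List (Crossing P)) : List P :=
  A.map (aE f) ++ C.map (uE f) ++ C.map (oE f)

theorem pts_true (A : List (P × P)) (C : List (Crossing P)) :
    pts true A C = Diagram.starts ⟨A, C⟩ := rfl

theorem pts_false (A : List (P × P)) (C : List (Crossing P)) :
    pts false A C = Diagram.ends ⟨A, C⟩ := by
  unfold pts Diagram.ends
  congr 1
  · congr 1
    refine List.map_congr_left fun x _ => ?_
    unfold uE
    cases x.underFwd <;> rfl
  · refine List.map_congr_left fun x _ => ?_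
    unfold oE
    cases x.overFwd <;> rfl

open Classical in
/-- the number of entries `z` of a list -/
noncomputable def cnt (l : List P) (z : P) : ℕ := l.count z

theorem cnt_nil (z : P) : cnt [] z = 0 := rfl

theorem cnt_cons_self (z : P) (l : List P) : cnt (z :: l) z = cnt l z + 1 := by
  classical
  exact List.count_cons_self

theorem cnt_cons_ne {a z : P} (h : a ≠ z) (l : List P) : cnt (a :: l) z = cnt l z := by
  classical
  exact List.count_cons_of_ne h

theorem cnt_eq_zero {z : P} {l : List P} : cnt l z = 0 ↔ z ∉ l := by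
  classical
  exact List.count_eq_zero

theorem cnt_append (z : P) (l l' : List P) : cnt (l ++ l') z = cnt l z + cnt l' z := by
  classical
  exact List.count_append

theorem cnt_perm {l l' : List P} (h : l.Perm l') (z : P) : cnt l z = cnt l' z := by
  classical
  exact h.count_eq z

theorem exists_perm_cons {α : Type} {x : α} {l : List α} (h : x ∈ l) :
    ∃ l', l.Perm (x :: l') := by
  obtain ⟨s, t, rfl⟩ := List.append_of_mem h
  exact ⟨s ++ t, List.perm_middle⟩

open Classical in
theorem closed_iff (A : List (P × P)) (C : List (Crossing P)) :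
    Diagram.IsClosed ⟨A, C⟩ ↔ ∀ (f : Bool) (q : P), cnt (pts f A C) q = 1 := by
  constructor
  · intro h f q
    cases f
    · rw [pts_false]; exact (h q).2
    · rw [pts_true]; exact (h q).1
  · intro h q
    refine ⟨?_, ?_⟩
    · rw [← pts_true]; exact h true q
    · rw [← pts_false]; exact h false q

theorem aE_arc (f : Bool) (p z : P) : aE f (arc f p z) = p := by cases f <;> rfl
theorem aE_arc' (f : Bool) (p z : P) : aE (!f) (arc f p z) = z := by cases f <;> rfl

theorem pts_cons_arc (f : Bool) (w : P × P) (A : List (P × P)) (C : List (Crossing P)) :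
    pts f (w :: A) C = aE f w :: pts f A C := rfl

theorem pts_map {P' : Type} (g : P → P') (f : Bool) (A : List (P × P)) (C : List (Crossing P)) :
    pts f (A.map (Prod.map g g)) (C.map (Crossing.map g)) = (pts f A C).map g := by
  unfold pts
  simp only [List.map_append, List.map_map]
  congr 1
  · congr 1
    · refine List.map_congr_left fun x _ => ?_
      cases f <;> rfl
    · refine List.map_congr_left fun x _ => ?_
      simp only [Function.comp, uE, Crossing.map]
      split_ifs <;> rfl
  · refine List.map_congr_left fun x _ => ?_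
    simp only [Function.comp, oE, Crossing.map]
    split_ifs <;> rfl

theorem pts_perm (f : Bool) {A A' : List (P × P)} {C C' : List (Crossing P)} (hA : A.Perm A')
    (hC : C.Perm C') : (pts f A C).Perm (pts f A' C') :=
  ((hA.map _).append (hC.map _)).append (hC.map _)

theorem pts_cons_crossing_count (f : Bool) (x : Crossing P) (A : List (P × P))
    (C : List (Crossing P)) (z : P) :
    cnt (pts f A (x :: C)) z = cnt (pts f A C) z + cnt [uE f x] z + cnt [oE f x] z := by
  unfold pts
  simp only [List.map_cons, cnt_append]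
  rw [show uE f x :: List.map (uE f) C = [uE f x] ++ List.map (uE f) C from rfl,
    show oE f x :: List.map (oE f) C = [oE f x] ++ List.map (oE f) C from rfl]
  simp only [cnt_append]
  ring

end

section
variable {P P' : Type} (g : P → P') {p z : P}

theorem count_map_ne (hg : ∀ a b, g a = g b → a = b ∨ (a = p ∧ b = z) ∨ (a = z ∧ b = p))
    {a : P} (hap : a ≠ p) (haz : a ≠ z) (l : List P) : cnt (l.map g) (g a) = cnt l a := by
  induction l with
  | nil => rfl
  | cons b l ih =>
    rw [List.map_cons]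
    by_cases hab : b = a
    · subst hab
      rw [cnt_cons_self, cnt_cons_self, ih]
    · have h2 : g b ≠ g a := by
        intro h
        rcases hg b a h with h | ⟨_, h⟩ | ⟨_, h⟩
        · exact hab h
        · exact haz h
        · exact hap h
      rw [cnt_cons_ne hab, cnt_cons_ne h2, ih]

theorem count_map_eq (hpz : p ≠ z) (hgz : g z = g p)
    (hg : ∀ a b, g a = g b → a = b ∨ (a = p ∧ b = z) ∨ (a = z ∧ b = p))
    (l : List P) : cnt (l.map g) (g p) = cnt l p + cnt l z := by
  induction l with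
  | nil => rfl
  | cons b l ih =>
    rw [List.map_cons]
    by_cases hbp : b = p
    · subst hbp
      rw [cnt_cons_self, cnt_cons_self, cnt_cons_ne hpz, ih]
      ring
    · by_cases hbz : b = z
      · subst hbz
        rw [hgz, cnt_cons_self, cnt_cons_self, cnt_cons_ne hbp, ih]
        ring
      · have h2 : g b ≠ g p := by
          intro h
          rcases hg b p h with h | ⟨h, _⟩ | ⟨h, _⟩
          · exact hbp h
          · exact hbp h
          · exact hbz h
        rw [cnt_cons_ne h2, cnt_cons_ne hbp, cnt_cons_ne hbz, ih]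

open Classical in
theorem closed_target (hpz : p ≠ z) (hgz : g z = g p) (hs : Function.Surjective g)
    (hg : ∀ a b, g a = g b → a = b ∨ (a = p ∧ b = z) ∨ (a = z ∧ b = p)) (f : Bool)
    (A : List (P × P)) (C : List (Crossing P))
    (h : Diagram.IsClosed ⟨arc f p z :: A, C⟩) :
    Diagram.IsClosed ⟨A.map (Prod.map g g), C.map (Crossing.map g)⟩ := by
  rw [closed_iff] at h ⊢
  intro f' q
  obtain ⟨a, rfl⟩ := hs q
  rw [pts_map]
  have key : cnt ((pts f' A C).map g) (g p) = 1 := by
    rw [count_map_eq g hpz hgz hg]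
    have h1 := h f' p
    have h2 := h f' z
    rw [pts_cons_arc] at h1 h2
    rcases Bool.eq_or_eq_not f' f with rfl | rfl
    · rw [aE_arc] at h1 h2
      rw [cnt_cons_self] at h1
      rw [cnt_cons_ne hpz] at h2
      omega
    · rw [aE_arc'] at h1 h2
      rw [cnt_cons_self] at h2
      rw [cnt_cons_ne hpz.symm] at h1
      omega
  by_cases hap : a = p
  · subst hap; exact key
  · by_cases haz : a = z
    · subst haz; rw [hgz]; exact key
    · rw [count_map_ne g hg hap haz]
      have h1 := h f' a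
      rw [pts_cons_arc] at h1
      rcases Bool.eq_or_eq_not f' f with rfl | rfl
      · rw [aE_arc, cnt_cons_ne (Ne.symm hap)] at h1
        exact h1
      · rw [aE_arc', cnt_cons_ne (Ne.symm haz)] at h1
        exact h1

end

section
variable {Q : Type}

/-- identify `inr ()` with `p0` -/
def gg (p0 : Q) : Q ⊕ Unit → Q := Sum.elim id (fun _ => p0)

theorem inl_gg (p0 : Q) {a : Q ⊕ Unit} (h : a ≠ .inr ()) : Sum.inl (gg p0 a) = a := by
  rcases a with a | a
  · rfl
  · exact absurd rfl h

theorem not_mem_split {P : Type} {z : P} {f : Bool} {A : List (P × P)} {C : List (Crossing P)}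
    (h : z ∉ pts f A C) : (∀ w ∈ A, aE f w ≠ z) ∧ (∀ x ∈ C, uE f x ≠ z ∧ oE f x ≠ z) := by
  unfold pts at h
  simp only [List.mem_append, not_or, List.mem_map, not_exists, not_and] at h
  exact ⟨h.1.1, fun x hx => ⟨h.1.2 x hx, h.2 x hx⟩⟩

theorem arcs_back (p0 : Q) {A : List ((Q ⊕ Unit) × (Q ⊕ Unit))} {C : List (Crossing (Q ⊕ Unit))}
    (h : ∀ f, (.inr () : Q ⊕ Unit) ∉ pts f A C) :
    (A.map (Prod.map (gg p0) (gg p0))).map (Prod.map Sum.inl Sum.inl) = A := by
  rw [List.map_map]
  conv_rhs => rw [← List.map_id A]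
  refine List.map_congr_left fun w hw => ?_
  have h1 := (not_mem_split (h true)).1 w hw
  have h2 := (not_mem_split (h false)).1 w hw
  exact Prod.ext (inl_gg p0 h1) (inl_gg p0 h2)

theorem abcd {P : Type} {z : P} {x : Crossing P} (h : ∀ f, uE f x ≠ z ∧ oE f x ≠ z) :
    x.a ≠ z ∧ x.b ≠ z ∧ x.c ≠ z ∧ x.d ≠ z := by
  have h1 := h true
  have h2 := h false
  unfold uE oE at h1 h2
  cases hu : x.underFwd <;> cases ho : x.overFwd <;> simp_all

theorem cross_back (p0 : Q) {A : List ((Q ⊕ Unit) × (Q ⊕ Unit))}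
    {C : List (Crossing (Q ⊕ Unit))}
    (h : ∀ f, (.inr () : Q ⊕ Unit) ∉ pts f A C) :
    (C.map (Crossing.map (gg p0))).map (Crossing.map Sum.inl) = C := by
  rw [List.map_map]
  conv_rhs => rw [← List.map_id C]
  refine List.map_congr_left fun x hx => ?_
  obtain ⟨ha, hb, hc, hd⟩ := abcd (x := x) (z := .inr ())
    (fun f => (not_mem_split (h f)).2 x hx)
  simp only [Function.comp, Crossing.map, inl_gg p0 ha, inl_gg p0 hb, inl_gg p0 hc, inl_gg p0 hd,
    id]

variable (p0 : Q) (h : Finite (Q ⊕ Unit)) (h' : Finite Q)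

theorem under_move {A : List ((Q ⊕ Unit) × (Q ⊕ Unit))} {C : List (Crossing (Q ⊕ Unit))}
    (hAC : ∀ f, (.inr () : Q ⊕ Unit) ∉ pts f A C) (x : Crossing (Q ⊕ Unit))
    (ha : x.a = .inr ()) (hb : x.b ≠ .inr ()) (hc : x.c ≠ .inr ()) (hd : x.d ≠ .inr ()) :
    Move ⟨Q, h', ⟨A.map (Prod.map (gg p0) (gg p0)), (x :: C).map (Crossing.map (gg p0))⟩⟩
      ⟨Q ⊕ Unit, h, ⟨arc x.underFwd (.inl p0) (.inr ()) :: A, x :: C⟩⟩ := by
  have hm := Move.cutUnder h' h ⟨A.map (Prod.map (gg p0) (gg p0)), C.map (Crossing.map (gg p0))⟩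
    p0 (gg p0 x.b) (gg p0 x.c) (gg p0 x.d) x.underFwd x.overFwd
  simp only [add, old, mapD, arcs_back p0 hAC, cross_back p0 hAC, inl_gg p0 hb, inl_gg p0 hc,
    inl_gg p0 hd, List.nil_append, List.cons_append] at hm
  obtain ⟨a, b, c, d, u, o⟩ := x
  simp only at ha
  subst ha
  exact hm

theorem over_move {A : List ((Q ⊕ Unit) × (Q ⊕ Unit))} {C : List (Crossing (Q ⊕ Unit))}
    (hAC : ∀ f, (.inr () : Q ⊕ Unit) ∉ pts f A C) (x : Crossing (Q ⊕ Unit))
    (ha : x.a ≠ .inr ()) (hb : x.b = .inr ()) (hc : x.c ≠ .inr ()) (hd : x.d ≠ .inr ()) :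
    Move ⟨Q, h', ⟨A.map (Prod.map (gg p0) (gg p0)), (x :: C).map (Crossing.map (gg p0))⟩⟩
      ⟨Q ⊕ Unit, h, ⟨arc x.overFwd (.inl p0) (.inr ()) :: A, x :: C⟩⟩ := by
  have hm := Move.cutOver h' h ⟨A.map (Prod.map (gg p0) (gg p0)), C.map (Crossing.map (gg p0))⟩
    (gg p0 x.a) p0 (gg p0 x.c) (gg p0 x.d) x.underFwd x.overFwd
  simp only [add, old, mapD, arcs_back p0 hAC, cross_back p0 hAC, inl_gg p0 ha, inl_gg p0 hc,
    inl_gg p0 hd, List.nil_append, List.cons_append] at hm
  obtain ⟨a, b, c, d, u, o⟩ := x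
  simp only at hb
  subst hb
  exact hm

theorem arc_case (hORD : S_ORD) {A : List ((Q ⊕ Unit) × (Q ⊕ Unit))}
    {C : List (Crossing (Q ⊕ Unit))} (f : Bool)
    (hAC : ∀ f, (.inr () : Q ⊕ Unit) ∉ pts f A C) (q : Q ⊕ Unit) (hq : q ≠ .inr ())
    (hX : Dia.IsLink ⟨Q ⊕ Unit, h, ⟨arc f (.inl p0) (.inr ()) :: arc f (.inr ()) q :: A, C⟩⟩)
    (hY : Dia.IsLink ⟨Q, h', ⟨(arc f (.inr ()) q :: A).map (Prod.map (gg p0) (gg p0)),
      C.map (Crossing.map (gg p0))⟩⟩) :
    ∀ v, Invariant v →
      v ⟨Q ⊕ Unit, h, ⟨arc f (.inl p0) (.inr ()) :: arc f (.inr ()) q :: A, C⟩⟩ =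
      v ⟨Q, h', ⟨(arc f (.inr ()) q :: A).map (Prod.map (gg p0) (gg p0)),
        C.map (Crossing.map (gg p0))⟩⟩ := by
  have hm := Move.cutArc h' h ⟨A.map (Prod.map (gg p0) (gg p0)), C.map (Crossing.map (gg p0))⟩
    (arc f p0 (gg p0 q)).1 (arc f p0 (gg p0 q)).2
  simp only [add, old, mapD, arcs_back p0 hAC, cross_back p0 hAC, List.nil_append,
    List.cons_append] at hm
  refine conclude hX hY (hORD _ _ _ _ _ _ ?_ (List.Perm.refl _))
    (hORD _ _ _ _ _ _ ?_ (List.Perm.refl _)) hm
  · cases f
    · simp only [arc, Bool.false_eq_true, if_false, inl_gg p0 hq]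
      exact List.Perm.swap _ _ _
    · simp only [arc, if_true, inl_gg p0 hq]
      exact List.Perm.refl _
  · cases f
    · exact List.Perm.refl _
    · exact List.Perm.refl _

end

section
variable {Q : Type} (p0 : Q) (h : Finite (Q ⊕ Unit)) (h' : Finite Q)

theorem cross_case (hTRN : S_TRN) {A : List ((Q ⊕ Unit) × (Q ⊕ Unit))}
    {C : List (Crossing (Q ⊕ Unit))} (f : Bool)
    (hAC : ∀ f, (.inr () : Q ⊕ Unit) ∉ pts f A C) (x : Crossing (Q ⊕ Unit))
    (hx : (uE f x = .inr () ∧ oE f x ≠ .inr ()) ∨ (uE f x ≠ .inr () ∧ oE f x = .inr ()))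
    (hu' : uE (!f) x ≠ .inr ()) (ho' : oE (!f) x ≠ .inr ())
    (hX : Dia.IsLink ⟨Q ⊕ Unit, h, ⟨arc f (.inl p0) (.inr ()) :: A, x :: C⟩⟩)
    (hY : Dia.IsLink ⟨Q, h', ⟨A.map (Prod.map (gg p0) (gg p0)),
      (x :: C).map (Crossing.map (gg p0))⟩⟩) :
    ∀ v, Invariant v → v ⟨Q ⊕ Unit, h, ⟨arc f (.inl p0) (.inr ()) :: A, x :: C⟩⟩ =
      v ⟨Q, h', ⟨A.map (Prod.map (gg p0) (gg p0)), (x :: C).map (Crossing.map (gg p0))⟩⟩ := by
  intro v hv
  have hXt := hTRN _ h (arc f (.inl p0) (.inr ()) :: A) x C
  have hYt := hTRN _ h' (A.map (Prod.map (gg p0) (gg p0))) (x.map (gg p0))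
    (C.map (Crossing.map (gg p0)))
  rcases hx with ⟨hu, ho⟩ | ⟨hu, ho⟩
  · by_cases hf : x.underFwd = f
    · have ha : x.a = .inr () := by simpa [uE, hf] using hu
      have hc : x.c ≠ .inr () := by
        have : x.underFwd ≠ !f := by rw [hf]; cases f <;> simp
        simpa [uE, this] using hu'
      have hbd : x.b ≠ .inr () ∧ x.d ≠ .inr () := by
        unfold oE at ho ho'
        cases h1 : x.overFwd <;> cases f <;> simp_all
      have hm := under_move p0 h h' hAC x ha hbd.1 hc hbd.2
      rw [hf] at hm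
      exact (hv _ _ hY hX hm).symm
    · have hc : x.c = .inr () := by simpa [uE, hf] using hu
      have ha : x.a ≠ .inr () := by
        have : x.underFwd = !f := by cases h1 : x.underFwd <;> cases f <;> simp_all
        simpa [uE, this] using hu'
      have hbd : x.b ≠ .inr () ∧ x.d ≠ .inr () := by
        unfold oE at ho ho'
        cases h1 : x.overFwd <;> cases f <;> simp_all
      have hm := under_move p0 h h' hAC (turn x) hc hbd.2 ha hbd.1
      have hf' : (turn x).underFwd = f := by
        show (!x.underFwd) = f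
        cases h1 : x.underFwd <;> cases f <;> simp_all
      rw [hf'] at hm
      have h1 := (hXt hX).2 v hv
      have h2 := (hYt hY).2 v hv
      refine h1.trans (Eq.trans ?_ h2.symm)
      exact (hv _ _ (hYt hY).1 (hXt hX).1 hm).symm
  · by_cases hf : x.overFwd = f
    · have hb : x.b = .inr () := by simpa [oE, hf] using ho
      have hd : x.d ≠ .inr () := by
        have : x.overFwd ≠ !f := by rw [hf]; cases f <;> simp
        simpa [oE, this] using ho'
      have hac : x.a ≠ .inr () ∧ x.c ≠ .inr () := by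
        unfold uE at hu hu'
        cases h1 : x.underFwd <;> cases f <;> simp_all
      have hm := over_move p0 h h' hAC x hac.1 hb hac.2 hd
      rw [hf] at hm
      exact (hv _ _ hY hX hm).symm
    · have hd : x.d = .inr () := by simpa [oE, hf] using ho
      have hb : x.b ≠ .inr () := by
        have : x.overFwd = !f := by cases h1 : x.overFwd <;> cases f <;> simp_all
        simpa [oE, this] using ho'
      have hac : x.a ≠ .inr () ∧ x.c ≠ .inr () := by
        unfold uE at hu hu'
        cases h1 : x.underFwd <;> cases f <;> simp_all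
      have hm := over_move p0 h h' hAC (turn x) hac.2 hd hac.1 hb
      have hf' : (turn x).overFwd = f := by
        show (!x.overFwd) = f
        cases h1 : x.overFwd <;> cases f <;> simp_all
      rw [hf'] at hm
      have h1 := (hXt hX).2 v hv
      have h2 := (hYt hY).2 v hv
      refine h1.trans (Eq.trans ?_ h2.symm)
      exact (hv _ _ (hYt hY).1 (hXt hX).1 hm).symm

open Classical in
theorem special (hORD : S_ORD) (hTRN : S_TRN) (f : Bool)
    (A : List ((Q ⊕ Unit) × (Q ⊕ Unit))) (C : List (Crossing (Q ⊕ Unit))) :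
    Leads ⟨Q ⊕ Unit, h, ⟨arc f (.inl p0) (.inr ()) :: A, C⟩⟩
      ⟨Q, h', ⟨A.map (Prod.map (gg p0) (gg p0)), C.map (Crossing.map (gg p0))⟩⟩ := by
  intro hX
  have hYc := closed_target (gg p0) (p := .inl p0) (z := .inr ()) (by simp) rfl
    (fun q => ⟨.inl q, rfl⟩) (by
      rintro (a | a) (b | b) hab
      · exact Or.inl (congrArg Sum.inl hab)
      · exact Or.inr (Or.inl ⟨congrArg Sum.inl hab, rfl⟩)
      · exact Or.inr (Or.inr ⟨rfl, congrArg Sum.inl hab.symm⟩)
      · exact Or.inl rfl) f A C hX.2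
  have hY : Dia.IsLink
      ⟨Q, h', ⟨A.map (Prod.map (gg p0) (gg p0)), C.map (Crossing.map (gg p0))⟩⟩ :=
    ⟨⟨p0⟩, hYc⟩
  refine ⟨hY, ?_⟩
  have hc := (closed_iff _ _).1 hX.2
  have h1 : cnt (pts f A C) (.inr ()) = 1 := by
    have := hc f (.inr ())
    rw [pts_cons_arc, aE_arc, cnt_cons_ne (by simp)] at this
    exact this
  have h2 : cnt (pts (!f) A C) (.inr ()) = 0 := by
    have := hc (!f) (.inr ())
    rw [pts_cons_arc, aE_arc', cnt_cons_self] at this
    omega
  have hz : (.inr () : Q ⊕ Unit) ∈ pts f A C := by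
    by_contra h3
    rw [← cnt_eq_zero] at h3
    omega
  have hall : ∀ {A' : List ((Q ⊕ Unit) × (Q ⊕ Unit))} {C' : List (Crossing (Q ⊕ Unit))},
      cnt (pts f A' C') (.inr ()) = 0 → cnt (pts (!f) A' C') (.inr ()) = 0 →
      ∀ f', (.inr () : Q ⊕ Unit) ∉ pts f' A' C' := by
    intro A' C' h3 h4 f'
    rw [cnt_eq_zero] at h3 h4
    rcases Bool.eq_or_eq_not f' f with rfl | rfl
    · exact h3
    · exact h4
  have hcross : ∀ x ∈ C, (uE f x = .inr () ∨ oE f x = .inr ()) → ∀ v, Invariant v →
      v ⟨Q ⊕ Unit, h, ⟨arc f (.inl p0) (.inr ()) :: A, C⟩⟩ =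
      v ⟨Q, h', ⟨A.map (Prod.map (gg p0) (gg p0)), C.map (Crossing.map (gg p0))⟩⟩ := by
    intro x hx hxz v hv
    obtain ⟨C1, hperm⟩ := exists_perm_cons hx
    have e1 := cnt_perm (pts_perm f (List.Perm.refl A) hperm) (.inr ())
    have e2 := cnt_perm (pts_perm (!f) (List.Perm.refl A) hperm) (.inr ())
    rw [h1, pts_cons_crossing_count] at e1
    rw [h2, pts_cons_crossing_count] at e2
    have hu' : uE (!f) x ≠ .inr () := by
      intro h3
      rw [h3, cnt_cons_self] at e2
      omega
    have ho' : oE (!f) x ≠ .inr () := by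
      intro h3
      rw [h3, cnt_cons_self] at e2
      omega
    have hsplit : cnt (pts f A C1) (.inr ()) = 0 ∧
        ((uE f x = .inr () ∧ oE f x ≠ .inr ()) ∨ (uE f x ≠ .inr () ∧ oE f x = .inr ())) := by
      by_cases hu : uE f x = .inr ()
      · rw [hu, cnt_cons_self] at e1
        refine ⟨by omega, Or.inl ⟨hu, fun h5 => ?_⟩⟩
        rw [h5, cnt_cons_self] at e1
        omega
      · have ho : oE f x = .inr () := hxz.resolve_left hu
        rw [ho, cnt_cons_self] at e1
        exact ⟨by omega, Or.inr ⟨hu, ho⟩⟩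
    have hrest := hall hsplit.1 (by omega)
    have hX1 := hORD _ h _ _ _ _ (List.Perm.refl (arc f (.inl p0) (.inr ()) :: A)) hperm
    have hY1 := hORD _ h' _ _ _ _ (List.Perm.refl (A.map (Prod.map (gg p0) (gg p0))))
      (hperm.map (Crossing.map (gg p0)))
    rw [(hX1 hX).2 v hv, (hY1 hY).2 v hv]
    exact cross_case p0 h h' hTRN f hrest x hsplit.2 hu' ho' (hX1 hX).1 (hY1 hY).1 v hv
  have hz' := hz
  unfold pts at hz'
  rw [List.mem_append, List.mem_append, List.mem_map, List.mem_map, List.mem_map] at hz'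
  rcases hz' with (⟨w, hw, hwz⟩ | ⟨x, hx, hxz⟩) | ⟨x, hx, hxz⟩
  · intro v hv
    obtain ⟨A1, hperm⟩ := exists_perm_cons hw
    have e1 := cnt_perm (pts_perm f hperm (List.Perm.refl C)) (.inr ())
    have e2 := cnt_perm (pts_perm (!f) hperm (List.Perm.refl C)) (.inr ())
    rw [h1, pts_cons_arc, hwz, cnt_cons_self] at e1
    rw [h2, pts_cons_arc] at e2
    have hq : aE (!f) w ≠ .inr () := by
      intro h3
      rw [h3, cnt_cons_self] at e2
      omega
    rw [cnt_cons_ne hq] at e2
    have hrest := hall (A' := A1) (C' := C) (by omega) (by omega)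
    have hw' : w = arc f (.inr ()) (aE (!f) w) := by
      rw [← hwz]
      cases f <;> rfl
    rw [hw'] at hperm
    have hX1 := hORD _ h _ _ _ _ (hperm.cons (arc f (.inl p0) (.inr ()))) (List.Perm.refl C)
    have hY1 := hORD _ h' _ _ _ _ (hperm.map (Prod.map (gg p0) (gg p0)))
      (List.Perm.refl (C.map (Crossing.map (gg p0))))
    rw [(hX1 hX).2 v hv, (hY1 hY).2 v hv]
    exact arc_case p0 h h' hORD f hrest _ hq (hX1 hX).1 (hY1 hY).1 v hv
  · exact hcross x hx (Or.inl hxz)
  · exact hcross x hx (Or.inr hxz)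

end

end TCON

open TCON in
theorem t_CON (hORD : S_ORD) (hTRN : S_TRN) (hREL : S_REL) : S_CON := by
  classical
  intro P P' hP hP' g p z f A C hpz hgz hs hg
  have hb : Function.Bijective (fun a : P => if a = z then (.inr () : P' ⊕ Unit) else .inl (g a)) := by
    constructor
    · intro a b hab
      simp only at hab
      by_cases ha : a = z
      · by_cases hb : b = z
        · rw [ha, hb]
        · rw [if_pos ha, if_neg hb] at hab
          exact absurd hab (by simp)
      · by_cases hb : b = z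
        · rw [if_neg ha, if_pos hb] at hab
          exact absurd hab (by simp)
        · rw [if_neg ha, if_neg hb] at hab
          rcases hg a b (Sum.inl.inj hab) with h | ⟨_, h⟩ | ⟨h, _⟩
          · exact h
          · exact absurd h hb
          · exact absurd h ha
    · rintro (q | u)
      · obtain ⟨a, rfl⟩ := hs q
        by_cases ha : a = z
        · refine ⟨p, ?_⟩
          simp only
          rw [if_neg hpz, ha, hgz]
        · exact ⟨a, if_neg ha⟩
      · exact ⟨z, if_pos rfl⟩
  let e : P ≃ P' ⊕ Unit := Equiv.ofBijective _ hb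
  have he : ∀ a, gg (g p) (e a) = g a := by
    intro a
    show gg (g p) (if a = z then (.inr () : P' ⊕ Unit) else .inl (g a)) = g a
    split_ifs with ha
    · rw [ha, hgz]; rfl
    · rfl
  have hez : e z = .inr () := if_pos rfl
  have hep : e p = .inl (g p) := if_neg hpz
  have hfin : Finite (P' ⊕ Unit) := inferInstance
  have h1 := hREL P (P' ⊕ Unit) hP hfin e ⟨arc f p z :: A, C⟩
  have harc : Prod.map e e (arc f p z) = arc f (.inl (g p)) (.inr ()) := by
    rw [← hez, ← hep]
    cases f <;> rfl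
  have h2 := special (g p) hfin hP' hORD hTRN f (A.map (Prod.map e e)) (C.map (Crossing.map e))
  simp only [mapD, List.map_cons, harc] at h1
  have h3 := leads_trans h1 h2
  have hA : (A.map (Prod.map e e)).map (Prod.map (gg (g p)) (gg (g p))) =
      A.map (Prod.map g g) := by
    rw [List.map_map]
    refine List.map_congr_left fun w _ => ?_
    exact Prod.ext (he _) (he _)
  have hC : (C.map (Crossing.map e)).map (Crossing.map (gg (g p))) = C.map (Crossing.map g) := by
    rw [List.map_map]
    refine List.map_congr_left fun x _ => ?_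
    simp only [Function.comp, Crossing.map, he]
  rw [hA, hC] at h3
  exact h3

end Pool.Agent.H867R5.TL
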