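import Pool.Agent.H867R5.TL.Stubs

set_option autoImplicit false

namespace Pool.Agent.H867R5.TL

open Pool.Agent.H891R2.Jones Pool.Agent.H832R3.VJ

namespace TKER

lemma mem_gens {m : ℕ} (g h : FreeGroup (Fin m)) (i : Fin m) :
    rho m g * (rho m (FreeGroup.of i) - rho m (FreeGroup.of i)⁻¹) * rho m h ∈
      Submodule.span ℤ (gens m) :=
  Submodule.subset_span ⟨g, h, i, rfl⟩

lemma left_mem {m : ℕ} (g : FreeGroup (Fin m)) (a : Module.End ℤ (FreeGroup (Fin m) → ℤ))
    (ha : a ∈ Submodule.span ℤ (gens m)) : rho m g * a ∈ Submodule.span ℤ (gens m) := by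
  induction ha using Submodule.span_induction with
  | mem x hx =>
    obtain ⟨g1, h1, i, rfl⟩ := hx
    have : rho m g * (rho m g1 * (rho m (FreeGroup.of i) - rho m (FreeGroup.of i)⁻¹) * rho m h1)
        = rho m (g * g1) * (rho m (FreeGroup.of i) - rho m (FreeGroup.of i)⁻¹) * rho m h1 := by
      rw [map_mul]; simp only [mul_assoc]
    rw [this]
    exact mem_gens _ _ _
  | zero => rw [mul_zero]; exact Submodule.zero_mem _
  | add x y _ _ hx hy => rw [mul_add]; exact Submodule.add_mem _ hx hy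
  | smul c x _ hx => rw [mul_smul_comm]; exact Submodule.smul_mem _ _ hx

lemma right_mem {m : ℕ} (g : FreeGroup (Fin m)) (a : Module.End ℤ (FreeGroup (Fin m) → ℤ))
    (ha : a ∈ Submodule.span ℤ (gens m)) : a * rho m g ∈ Submodule.span ℤ (gens m) := by
  induction ha using Submodule.span_induction with
  | mem x hx =>
    obtain ⟨g1, h1, i, rfl⟩ := hx
    have : rho m g1 * (rho m (FreeGroup.of i) - rho m (FreeGroup.of i)⁻¹) * rho m h1 * rho m g
        = rho m g1 * (rho m (FreeGroup.of i) - rho m (FreeGroup.of i)⁻¹) * rho m (h1 * g) := by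
      rw [map_mul]; simp only [mul_assoc]
    rw [this]
    exact mem_gens _ _ _
  | zero => rw [zero_mul]; exact Submodule.zero_mem _
  | add x y _ _ hx hy => rw [add_mul]; exact Submodule.add_mem _ hx hy
  | smul c x _ hx => rw [smul_mul_assoc]; exact Submodule.smul_mem _ _ hx

lemma sq_mem {m : ℕ} (x : Letter m) :
    rho m (FreeGroup.mk [x, x]) - 1 ∈ Submodule.span ℤ (gens m) := by
  obtain ⟨i, s⟩ := x
  have h0 : (FreeGroup.mk [((i, s) : Letter m), (i, s)]) = FreeGroup.mk [(i, s)] *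
      FreeGroup.mk [(i, s)] := by rw [FreeGroup.mul_mk]; rfl
  have hinv : rho m (FreeGroup.of i) * rho m (FreeGroup.of i)⁻¹ = 1 := by
    rw [← map_mul]; simp
  have hinv2 : rho m (FreeGroup.of i)⁻¹ * rho m (FreeGroup.of i) = 1 := by
    rw [← map_mul]; simp
  cases s with
  | true =>
    have h1 : (FreeGroup.mk [((i, true) : Letter m)]) = FreeGroup.of i := rfl
    rw [h0, h1, map_mul]
    have h2 : rho m (FreeGroup.of i) * rho m (FreeGroup.of i) - 1 =
        rho m (FreeGroup.of i) * (rho m (FreeGroup.of i) - rho m (FreeGroup.of i)⁻¹) *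
          rho m 1 := by
      rw [map_one, mul_one, mul_sub, hinv]
    rw [h2]
    exact mem_gens _ _ _
  | false =>
    have h1 : (FreeGroup.mk [((i, false) : Letter m)]) = (FreeGroup.of i)⁻¹ := by
      rw [FreeGroup.of, FreeGroup.inv_mk]; rfl
    rw [h0, h1, map_mul]
    have h2 : rho m (FreeGroup.of i)⁻¹ * rho m (FreeGroup.of i)⁻¹ - 1 =
        -(rho m (FreeGroup.of i)⁻¹ * (rho m (FreeGroup.of i) - rho m (FreeGroup.of i)⁻¹) *
          rho m 1) := by
      rw [map_one, mul_one, mul_sub, hinv2]; abel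
    rw [h2]
    exact Submodule.neg_mem _ (mem_gens _ _ _)

lemma inv_mk' {m : ℕ} (w : List (Letter m)) :
    FreeGroup.mk (inv w) = (FreeGroup.mk w)⁻¹ := by
  rw [FreeGroup.inv_mk]; rfl

lemma pure_mem {m : ℕ} (b : List (List (Letter m) × Letter m)) :
    rho m (FreeGroup.mk (pureWord b)) - 1 ∈ Submodule.span ℤ (gens m) := by
  induction b with
  | nil =>
    have : FreeGroup.mk (pureWord ([] : List (List (Letter m) × Letter m))) = 1 := rfl
    rw [this, map_one, sub_self]
    exact Submodule.zero_mem _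
  | cons t b ih =>
    have h0 : pureWord (t :: b) = (t.1 ++ [t.2, t.2] ++ inv t.1) ++ pureWord b := rfl
    have h1 : FreeGroup.mk (pureWord (t :: b)) = FreeGroup.mk t.1 * FreeGroup.mk [t.2, t.2] *
        (FreeGroup.mk t.1)⁻¹ * FreeGroup.mk (pureWord b) := by
      rw [h0, ← FreeGroup.mul_mk, ← FreeGroup.mul_mk, ← FreeGroup.mul_mk, inv_mk']
    have hinv : rho m (FreeGroup.mk t.1) * rho m (FreeGroup.mk t.1)⁻¹ = 1 := by
      rw [← map_mul, mul_inv_cancel, map_one]
    have h2 : rho m (FreeGroup.mk (pureWord (t :: b))) - 1 =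
        rho m (FreeGroup.mk t.1) * (rho m (FreeGroup.mk [t.2, t.2]) - 1) *
          rho m ((FreeGroup.mk t.1)⁻¹ * FreeGroup.mk (pureWord b)) +
        (rho m (FreeGroup.mk (pureWord b)) - 1) := by
      rw [h1, map_mul, map_mul, map_mul, map_mul, mul_sub, mul_one, sub_mul,
        ← mul_assoc (rho m (FreeGroup.mk t.1)) (rho m (FreeGroup.mk t.1)⁻¹), hinv, one_mul,
        mul_assoc, mul_assoc]
      abel
    rw [h2]
    exact Submodule.add_mem _ (right_mem _ _ (left_mem _ _ (sq_mem _))) ih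

end TKER

theorem t_KER : S_KER := fun _ =>
  ⟨fun g a ha => ⟨TKER.left_mem g a ha, TKER.right_mem g a ha⟩, TKER.pure_mem⟩

end Pool.Agent.H867R5.TL
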