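import Pool.Agent.H867R5.TL.Stubs

set_option autoImplicit false

namespace Pool.Agent.H867R5.TL

open Pool.Agent.H891R2.Jones Pool.Agent.H832R3.VJ

namespace TNEW

variable {G A : Type} [Group G] [Ring A] (ρ : G →* A) (K : Submodule ℤ A)

lemma pow_left (hK : ∀ g a, a ∈ K → ρ g * a ∈ K ∧ a * ρ g ∈ K) (e : ℕ) (g : G) (a : A)
    (ha : a ∈ K ^ (e + 1)) : ρ g * a ∈ K ^ (e + 1) := by
  rw [pow_succ'] at ha ⊢
  induction ha using Submodule.mul_induction_on' with
  | mem_mul_mem x hx y hy =>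
    rw [← mul_assoc]
    exact Submodule.mul_mem_mul (hK g x hx).1 hy
  | add x _ y _ hx hy => rw [mul_add]; exact Submodule.add_mem _ hx hy

lemma pow_right (hK : ∀ g a, a ∈ K → ρ g * a ∈ K ∧ a * ρ g ∈ K) (e : ℕ) (g : G) (a : A)
    (ha : a ∈ K ^ (e + 1)) : a * ρ g ∈ K ^ (e + 1) := by
  rw [pow_succ] at ha ⊢
  induction ha using Submodule.mul_induction_on' with
  | mem_mul_mem x hx y hy =>
    rw [mul_assoc]
    exact Submodule.mul_mem_mul hx (hK g y hy).2
  | add x _ y _ hx hy => rw [add_mul]; exact Submodule.add_mem _ hx hy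

/-- the ring generated by the group -/
def R0 : Subring A := Subring.closure (Set.range ρ)

lemma rho_mem (g : G) : ρ g ∈ R0 ρ := Subring.subset_closure ⟨g, rfl⟩

lemma mul_R0 (J : Submodule ℤ A) (hJ : ∀ g a, a ∈ J → a * ρ g ∈ J) (y : A) (hy : y ∈ R0 ρ) :
    ∀ x ∈ J, x * y ∈ J := by
  unfold R0 at hy
  induction hy using Subring.closure_induction with
  | mem y hy =>
    obtain ⟨g, rfl⟩ := hy
    exact fun x hx => hJ g x hx
  | zero => intro x _; rw [mul_zero]; exact J.zero_mem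
  | one => intro x hx; rwa [mul_one]
  | add a b _ _ ha hb => intro x hx; rw [mul_add]; exact J.add_mem (ha x hx) (hb x hx)
  | neg a _ ha => intro x hx; rw [mul_neg]; exact J.neg_mem (ha x hx)
  | mul a b _ _ ha hb => intro x hx; rw [← mul_assoc]; exact hb _ (ha x hx)

lemma list_pow (w : List A) (hw : ∀ x ∈ w, x ∈ K) : w.prod ∈ K ^ w.length := by
  induction w with
  | nil => rw [List.prod_nil, List.length_nil, pow_zero]; exact Submodule.one_le.1 le_rfl
  | cons a w ih =>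
    rw [List.prod_cons, List.length_cons, pow_succ']
    exact Submodule.mul_mem_mul (hw a (by simp)) (ih fun x hx => hw x (by simp [hx]))

lemma list_J (hK : ∀ g a, a ∈ K → ρ g * a ∈ K ∧ a * ρ g ∈ K) (d : ℕ) (w : List A)
    (hw : ∀ x ∈ w, x ∈ K) (hw' : ∀ x ∈ w, x ∈ R0 ρ) (hl : d + 1 ≤ w.length) :
    w.prod ∈ K ^ (d + 1) := by
  have h1 : (w.take (d + 1)).prod ∈ K ^ (d + 1) := by
    have h := list_pow K (w.take (d + 1)) fun x hx => hw x (List.mem_of_mem_take hx)
    rwa [List.length_take, min_eq_left hl] at h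
  have h2 : (w.drop (d + 1)).prod ∈ R0 ρ :=
    Subring.list_prod_mem _ fun x hx => hw' x (List.mem_of_mem_drop hx)
  rw [← List.prod_take_mul_prod_drop w (d + 1)]
  exact mul_R0 ρ _ (pow_right ρ K hK d) _ h2 _ h1

/-- truncated Newton series -/
def Nw (d : ℕ) (t : A) (n : ℤ) : A :=
  ∑ a ∈ Finset.range (d + 1), (Ring.choose n a : ℤ) • t ^ a

lemma Nw_zero (d : ℕ) (t : A) : Nw d t 0 = 1 := by
  unfold Nw
  rw [Finset.sum_eq_single 0]
  · simp
  · intro b _ hb
    rw [Ring.choose_zero_pos ℤ (Nat.pos_of_ne_zero hb), zero_smul]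
  · intro h; simp at h

lemma Nw_succ (d : ℕ) (t : A) (n : ℤ) :
    (1 + t) * Nw d t n - Nw d t (n + 1) = (Ring.choose n d : ℤ) • t ^ (d + 1) := by
  induction d with
  | zero =>
    unfold Nw
    simp
  | succ d ih =>
    have h1 : ∀ k : ℤ, Nw (d + 1) t k = Nw d t k + (Ring.choose k (d + 1) : ℤ) • t ^ (d + 1) := by
      intro k
      unfold Nw
      rw [Finset.sum_range_succ]
    rw [h1, h1, Ring.choose_succ_succ, add_smul]
    have h2 : (1 + t) * (Nw d t n + (Ring.choose n (d + 1) : ℤ) • t ^ (d + 1)) =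
        (1 + t) * Nw d t n + (Ring.choose n (d + 1) : ℤ) • t ^ (d + 1) +
          (Ring.choose n (d + 1) : ℤ) • t ^ (d + 1 + 1) := by
      rw [mul_add, mul_smul_comm, add_mul 1 t (t ^ (d + 1)), one_mul, ← pow_succ', smul_add, ← add_assoc]
    rw [h2]
    have h3 : (1 + t) * Nw d t n = Nw d t (n + 1) + (Ring.choose n d : ℤ) • t ^ (d + 1) := by
      rw [← ih]; abel
    rw [h3]
    abel

lemma single (hK : ∀ g a, a ∈ K → ρ g * a ∈ K ∧ a * ρ g ∈ K) (d : ℕ) (β : G)
    (hβ : ρ β - 1 ∈ K) (n : ℤ) : ρ (β ^ n) - Nw d (ρ β - 1) n ∈ K ^ (d + 1) := by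
  have hs : ∀ n : ℤ, ρ β * Nw d (ρ β - 1) n - Nw d (ρ β - 1) (n + 1) ∈ K ^ (d + 1) := by
    intro n
    have h := Nw_succ d (ρ β - 1) n
    rw [add_sub_cancel] at h
    rw [h]
    exact Submodule.smul_mem _ _ (Submodule.pow_mem_pow K hβ (d + 1))
  induction n using Int.induction_on with
  | zero => rw [zpow_zero, map_one, Nw_zero, sub_self]; exact Submodule.zero_mem _
  | succ n ih =>
    have h1 : ρ (β ^ ((n : ℤ) + 1)) - Nw d (ρ β - 1) ((n : ℤ) + 1) =
        ρ β * (ρ (β ^ (n : ℤ)) - Nw d (ρ β - 1) n) +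
          (ρ β * Nw d (ρ β - 1) n - Nw d (ρ β - 1) ((n : ℤ) + 1)) := by
      rw [add_comm (n : ℤ) 1, zpow_add, zpow_one, map_mul, mul_sub]; abel
    rw [h1]
    exact Submodule.add_mem _ (pow_left ρ K hK d β _ ih) (hs _)
  | pred n ih =>
    have hinv : ρ β⁻¹ * ρ β = 1 := by rw [← map_mul, inv_mul_cancel, map_one]
    have h0 := hs (-(n : ℤ) - 1)
    rw [sub_add_cancel] at h0
    have h1 : ρ (β ^ (-(n : ℤ) - 1)) - Nw d (ρ β - 1) (-(n : ℤ) - 1) =
        ρ β⁻¹ * ((ρ (β ^ (-(n : ℤ))) - Nw d (ρ β - 1) (-(n : ℤ))) -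
          (ρ β * Nw d (ρ β - 1) (-(n : ℤ) - 1) - Nw d (ρ β - 1) (-(n : ℤ)))) := by
      have h2 : β ^ (-(n : ℤ) - 1) = β⁻¹ * β ^ (-(n : ℤ)) := by
        rw [← zpow_neg_one, ← zpow_add]; congr 1; ring
      rw [h2, map_mul]
      have h3 : ρ β⁻¹ * ((ρ (β ^ (-(n : ℤ))) - Nw d (ρ β - 1) (-(n : ℤ))) -
          (ρ β * Nw d (ρ β - 1) (-(n : ℤ) - 1) - Nw d (ρ β - 1) (-(n : ℤ)))) =
          ρ β⁻¹ * ρ (β ^ (-(n : ℤ))) - ρ β⁻¹ * ρ β * Nw d (ρ β - 1) (-(n : ℤ) - 1) := by
        rw [mul_assoc]; simp only [mul_sub]; abel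
      rw [h3, hinv, one_mul]
    rw [h1]
    exact pow_left ρ K hK d _ _ (Submodule.sub_mem _ ih h0)

lemma Nw_mem_R0 (d : ℕ) (β : G) (n : ℤ) : Nw d (ρ β - 1) n ∈ R0 ρ := by
  unfold Nw
  refine Subring.sum_mem _ fun a _ => ?_
  exact Subring.zsmul_mem _ (Subring.pow_mem _ (Subring.sub_mem _ (rho_mem ρ β)
    (Subring.one_mem _)) _) _

lemma multi (hK : ∀ g a, a ∈ K → ρ g * a ∈ K ∧ a * ρ g ∈ K) (d : ℕ) {k : ℕ} (β : Fin k → G)
    (hβ : ∀ j, ρ (β j) - 1 ∈ K) (n : Fin k → ℤ) (l : List (Fin k)) :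
    ρ (l.map fun j => β j ^ n j).prod - (l.map fun j => Nw d (ρ (β j) - 1) (n j)).prod ∈
      K ^ (d + 1) := by
  induction l with
  | nil => simp
  | cons j l ih =>
    rw [List.map_cons, List.map_cons, List.prod_cons, List.prod_cons, map_mul]
    have h1 : ρ (β j ^ n j) * ρ (l.map fun j => β j ^ n j).prod -
        Nw d (ρ (β j) - 1) (n j) * (l.map fun j => Nw d (ρ (β j) - 1) (n j)).prod =
        ρ (β j ^ n j) * (ρ (l.map fun j => β j ^ n j).prod -
          (l.map fun j => Nw d (ρ (β j) - 1) (n j)).prod) +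
        (ρ (β j ^ n j) - Nw d (ρ (β j) - 1) (n j)) *
          (l.map fun j => Nw d (ρ (β j) - 1) (n j)).prod := by
      rw [mul_sub, sub_mul]; abel
    rw [h1]
    refine Submodule.add_mem _ (pow_left ρ K hK d _ _ ih) ?_
    refine mul_R0 ρ _ (pow_right ρ K hK d) _ ?_ _ (single ρ K hK d _ (hβ j) _)
    refine Subring.list_prod_mem _ fun x hx => ?_
    obtain ⟨i, _, rfl⟩ := List.mem_map.1 hx
    exact Nw_mem_R0 ρ d _ _

/-- the product of sums -/
lemma expand (d : ℕ) : ∀ (k : ℕ) (u : Fin k → ℕ → ℤ) (t : Fin k → A),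
    ((List.finRange k).map fun j => ∑ a ∈ Finset.range (d + 1), u j a • t j ^ a).prod =
      ∑ a ∈ Fintype.piFinset (fun _ : Fin k => Finset.range (d + 1)),
        (∏ j, u j (a j)) • ((List.finRange k).map fun j => t j ^ a j).prod := by
  intro k
  induction k with
  | zero => intro u t; simp
  | succ k ih =>
    intro u t
    rw [List.finRange_succ, List.map_cons, List.prod_cons, List.map_map]
    have h1 := ih (fun j => u j.succ) (fun j => t j.succ)
    have h2 : (List.map ((fun j => ∑ a ∈ Finset.range (d + 1), u j a • t j ^ a) ∘ Fin.succ)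
        (List.finRange k)).prod = ∑ a ∈ Fintype.piFinset (fun _ : Fin k => Finset.range (d + 1)),
        (∏ j, u (Fin.succ j) (a j)) • ((List.finRange k).map fun j => t (Fin.succ j) ^ a j).prod :=
      h1
    rw [h2, Finset.sum_mul_sum, ← Finset.sum_product']
    refine Finset.sum_nbij' (fun p => Fin.cons p.1 p.2) (fun a => (a 0, Fin.tail a))
      ?_ ?_ ?_ ?_ ?_
    · intro p hp
      rw [Finset.mem_product, Fintype.mem_piFinset] at hp
      rw [Fintype.mem_piFinset]
      intro j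
      refine Fin.cases ?_ (fun i => ?_) j
      · simpa using hp.1
      · simpa using hp.2 i
    · intro a ha
      rw [Fintype.mem_piFinset] at ha
      rw [Finset.mem_product, Fintype.mem_piFinset]
      exact ⟨ha 0, fun j => ha j.succ⟩
    · intro p _; simp
    · intro a _; simp
    · intro p _
      rw [Fin.prod_univ_succ, List.map_cons, List.prod_cons, List.map_map]
      simp only [Fin.cons_zero, Fin.cons_succ]
      have h3 : ((fun j => t j ^ (Fin.cons p.1 p.2 : Fin (k + 1) → ℕ) j) ∘ Fin.succ) =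
          fun j => t (Fin.succ j) ^ p.2 j := by
        funext j; simp
      rw [h3, smul_mul_smul_comm]

lemma prod_pow_eq {k : ℕ} (t : Fin k → A) (a : Fin k → ℕ) (l : List (Fin k)) :
    (l.map fun j => t j ^ a j).prod = (l.flatMap fun j => List.replicate (a j) (t j)).prod := by
  induction l with
  | nil => simp
  | cons j l ih => rw [List.map_cons, List.prod_cons, List.flatMap_cons, List.prod_append,
      List.prod_replicate, ih]

lemma big (hK : ∀ g a, a ∈ K → ρ g * a ∈ K ∧ a * ρ g ∈ K) (d : ℕ) {k : ℕ} (β : Fin k → G)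
    (hβ : ∀ j, ρ (β j) - 1 ∈ K) (a : Fin k → ℕ) (ha : d < ∑ j, a j) :
    ((List.finRange k).map fun j => (ρ (β j) - 1) ^ a j).prod ∈ K ^ (d + 1) := by
  rw [prod_pow_eq (fun j => ρ (β j) - 1) a]
  refine list_J ρ K hK d _ ?_ ?_ ?_
  · intro x hx
    obtain ⟨j, _, hj⟩ := List.mem_flatMap.1 hx
    rw [List.eq_of_mem_replicate hj]
    exact hβ j
  · intro x hx
    obtain ⟨j, _, hj⟩ := List.mem_flatMap.1 hx
    rw [List.eq_of_mem_replicate hj]
    exact Subring.sub_mem _ (rho_mem ρ _) (Subring.one_mem _)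
  · rw [List.length_flatMap]
    have h1 : (List.map (fun j => (List.replicate (a j) (ρ (β j) - 1)).length)
        (List.finRange k)).sum = ∑ j, a j := by
      rw [← List.sum_ofFn, List.ofFn_eq_map]
      congr 1
      apply List.map_congr_left
      intro j _
      rw [List.length_replicate]
    rw [h1]
    exact ha

end TNEW

theorem t_NEW : S_NEW := by
  intro G A _ _ ρ K d L k β hK hβ hL
  refine ⟨fun a => L ((List.finRange k).map fun j => (ρ (β j) - 1) ^ a j).prod, fun n => ?_⟩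
  have h1 := TNEW.multi ρ K hK d β hβ n (List.finRange k)
  have h2 := hL _ h1
  rw [map_sub, sub_eq_zero] at h2
  rw [h2]
  have h3 := TNEW.expand (A := A) d k (fun j a => Ring.choose (n j) a) (fun j => ρ (β j) - 1)
  have h4 : (List.map (fun j => TNEW.Nw d (ρ (β j) - 1) (n j)) (List.finRange k)).prod =
      ∑ a ∈ Fintype.piFinset (fun _ : Fin k => Finset.range (d + 1)),
        (∏ j, Ring.choose (n j) (a j)) •
          ((List.finRange k).map fun j => (ρ (β j) - 1) ^ a j).prod := h3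
  rw [h4, map_sum]
  refine Finset.sum_congr rfl fun a _ => ?_
  rw [map_zsmul, smul_eq_mul]
  split_ifs with h
  · rw [mul_comm]
  · rw [hL _ (TNEW.big ρ K hK d β hβ a (by omega)), mul_zero]

end Pool.Agent.H867R5.TL
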