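import Pool.Agent.H867R5.TL.Stubs

set_option autoImplicit false

namespace Pool.Agent.H867R5.TL

theorem t_NOE : S_NOE := by
  classical
  intro k I p _
  have hfg : (Submodule.span (MvPolynomial (Fin k) ℚ) (Set.range p)).FG :=
    IsNoetherian.noetherian _
  obtain ⟨s, hs, hspan⟩ := (Submodule.fg_span_iff_fg_span_finset_subset _).1 hfg
  -- choose preimages
  have hex : ∀ y : s, ∃ i, p i = (y : MvPolynomial (Fin k) ℚ) := fun y => hs y.2
  choose f hf using hex
  refine ⟨s.card, fun j => f (s.equivFin.symm j), fun x hx i => ?_⟩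
  have hle : Submodule.span (MvPolynomial (Fin k) ℚ) (Set.range p) ≤
      (RingHom.ker (MvPolynomial.eval x) : Ideal (MvPolynomial (Fin k) ℚ)) := by
    rw [hspan, Submodule.span_le]
    intro y hy
    have hy' : y ∈ s := hy
    have := hx (s.equivFin ⟨y, hy'⟩)
    simp only [Equiv.symm_apply_apply, hf] at this
    exact (RingHom.mem_ker).2 this
  exact (RingHom.mem_ker).1 (hle (Submodule.subset_span ⟨i, rfl⟩))

end Pool.Agent.H867R5.TL
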