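import Pool.Agent.H867R5.TL.Stubs

set_option autoImplicit false

/-! Binomial coefficients are polynomials. -/

namespace Pool.Agent.H867R5.TL

namespace TPLY

open MvPolynomial

/-- the binomial coefficient as a polynomial in one variable -/
noncomputable def bn (a : ℕ) : Polynomial ℚ :=
  Polynomial.C ((a.factorial : ℚ)⁻¹) * descPochhammer ℚ a

theorem bn_deg (a : ℕ) : (bn a).natDegree ≤ a := by
  unfold bn
  refine (Polynomial.natDegree_C_mul_le _ _).trans ?_
  rw [descPochhammer_natDegree]

theorem bn_eval (a : ℕ) (n : ℤ) : (bn a).eval (n : ℚ) = ((Ring.choose n a : ℤ) : ℚ) := by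
  unfold bn
  rw [Polynomial.eval_mul, Polynomial.eval_C]
  have h1 : (descPochhammer ℚ a).eval (n : ℚ) = (((descPochhammer ℤ a).eval n : ℤ) : ℚ) := by
    rw [← descPochhammer_map (Int.castRingHom ℚ) a, Polynomial.eval_intCast_map]
    rfl
  have h2 : (descPochhammer ℤ a).eval n = (a.factorial : ℤ) * Ring.choose n a := by
    have h := Ring.descPochhammer_eq_factorial_smul_choose n a
    rw [← Polynomial.eval_eq_smeval, nsmul_eq_mul] at h
    exact h
  rw [h1, h2]
  push_cast
  have h3 : (a.factorial : ℚ) ≠ 0 := by exact_mod_cast a.factorial_ne_zero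
  field_simp

/-- in one of several variables -/
noncomputable def B {k : ℕ} (j : Fin k) (a : ℕ) : MvPolynomial (Fin k) ℚ :=
  Polynomial.aeval (X j) (bn a)

theorem B_deg {k : ℕ} (j : Fin k) (a : ℕ) : (B j a).totalDegree ≤ a := by
  unfold B
  rw [Polynomial.aeval_eq_sum_range]
  refine totalDegree_finsetSum_le fun i hi => ?_
  refine (totalDegree_smul_le _ _).trans ?_
  rw [totalDegree_X_pow]
  have := bn_deg a
  rw [Finset.mem_range] at hi
  omega

theorem B_eval {k : ℕ} (j : Fin k) (a : ℕ) (n : Fin k → ℤ) :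
    eval (fun j => (n j : ℚ)) (B j a) = ((Ring.choose (n j) a : ℤ) : ℚ) := by
  rw [← bn_eval]
  unfold B
  rw [Polynomial.aeval_eq_sum_range, Polynomial.eval_eq_sum_range, map_sum]
  refine Finset.sum_congr rfl fun i _ => ?_
  rw [smul_eval, map_pow, eval_X]

end TPLY

open TPLY MvPolynomial in
theorem t_PLY : S_PLY := by
  classical
  intro k d c
  refine ⟨∑ a ∈ Fintype.piFinset (fun _ : Fin k => Finset.range (d + 1)),
    if ∑ j, a j ≤ d then C (c a : ℚ) * ∏ j, B j (a j) else 0, ?_, ?_⟩
  · refine totalDegree_finsetSum_le fun a _ => ?_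
    split_ifs with h
    · refine (totalDegree_mul _ _).trans ?_
      rw [totalDegree_C, zero_add]
      refine (totalDegree_finsetProd _ _).trans ?_
      exact (Finset.sum_le_sum fun j _ => B_deg j (a j)).trans h
    · simp
  · intro n
    rw [map_sum]
    push_cast
    refine Finset.sum_congr rfl fun a _ => ?_
    split_ifs with h
    · rw [map_mul, eval_C, map_prod]
      simp only [B_eval]
    · simp

end Pool.Agent.H867R5.TL
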