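import Pool.Agent.H867R5.TL.Stubs

set_option autoImplicit false

/-!
# R2: cancellation of two inverse letters
-/

namespace Pool.Agent.H867R5.TL

open Pool.Agent.H891R2.Jones Pool.Agent.H832R3.VJ

namespace TR2

theorem leads_trans {X Y Z : Dia} (h1 : Leads X Y) (h2 : Leads Y Z) : Leads X Z := by
  intro hX
  obtain ⟨hY, e1⟩ := h1 hX
  obtain ⟨hZ, e2⟩ := h2 hY
  exact ⟨hZ, fun v hv => (e1 v hv).trans (e2 v hv)⟩

theorem map_arc {P Q : Type} (g : P → Q) (f : Bool) (p q : P) :
    Prod.map g g (arc f p q) = arc f (g p) (g q) := by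
  cases f <;> rfl

theorem map_cross {P Q : Type} (h : P → Q) (ov : Bool) (ll lr ul ur : P) (f g : Bool) :
    Crossing.map h (cross ov ll lr ul ur f g) = cross ov (h ll) (h lr) (h ul) (h ur) f g := by
  cases ov <;> rfl

variable {m : ℕ}

/-- the box after the second Reidemeister move -/
def O1 (O : Box m) (i : Fin m) : Box m where
  P := O.P ⊕ Bool
  fin := by have := O.fin; infer_instance
  arcs := arc (O.up i.castSucc) (.inl (O.lower i.castSucc)) (.inr false) ::
    arc (O.up i.succ) (.inl (O.lower i.succ)) (.inr true) :: O.arcs.map (Prod.map .inl .inl)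
  crossings := O.crossings.map (Crossing.map .inl)
  lower := fun j => if j = i.castSucc then .inr false else if j = i.succ then .inr true
    else .inl (O.lower j)
  upper := fun j => .inl (O.upper j)
  up := O.up

/-- the box after the contraction of one arc -/
def O1' (O : Box m) (i : Fin m) : Box m where
  P := O.P ⊕ Unit
  fin := by have := O.fin; infer_instance
  arcs := arc (O.up i.castSucc) (.inl (O.lower i.castSucc)) (.inr ()) ::
    O.arcs.map (Prod.map .inl .inl)
  crossings := O.crossings.map (Crossing.map .inl)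
  lower := fun j => if j = i.castSucc then .inr () else .inl (O.lower j)
  upper := fun j => .inl (O.upper j)
  up := O.up

/-- the inclusion of the points -/
def gS (P : Type) : P ⊕ Bool → (P ⊕ Bool) ⊕ Bool
  | .inl p => .inl (.inl p)
  | .inr b => .inr b

theorem gS_inj (P : Type) : Function.Injective (gS P) := by
  rintro (a | a) (b | b) h
  · exact congrArg _ (Sum.inl.inj (Sum.inl.inj h))
  · simp [gS] at h
  · simp [gS] at h
  · exact congrArg _ (Sum.inr.inj h)

theorem gS_ne (P : Type) (a : P ⊕ Bool) (b : Bool) : gS P a ≠ .inl (.inr b) := by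
  rcases a with a | a
  · intro h
    simp [gS] at h
  · intro h
    simp [gS] at h

theorem map_cc (O : Box m) : (O.crossings.map (Crossing.map Sum.inl)).map
    (Crossing.map (Sum.inl : O.P ⊕ Bool → (O.P ⊕ Bool) ⊕ Bool)) =
    (O.crossings.map (Crossing.map Sum.inl)).map (Crossing.map (gS O.P)) := by
  rw [List.map_map, List.map_map]
  rfl

theorem sec (O : Box m) (i : Fin m) (s : Bool) :
    SecB ((O.push (i, s)).push (i, !s)) (O1 O i) := by
  have hne : i.castSucc ≠ i.succ := by
    intro h
    have := congrArg Fin.val h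
    simp at this
  refine ⟨gS O.P, Sum.inl (Sum.inr false), Sum.inl (Sum.inr true), s, O.up i.castSucc, O.up i.succ,
    Sum.inl (O.lower i.castSucc), Sum.inr false, Sum.inl (O.lower i.succ), Sum.inr true,
    O.arcs.map (Prod.map Sum.inl Sum.inl), O.crossings.map (Crossing.map Sum.inl),
    List.Perm.refl _, List.Perm.refl _, ?_, ?_, ?_, ?_, ?_, ?_, ?_, ?_, ?_, ?_⟩
  · have h : ((O.push (i, s)).push (i, !s)).arcs =
        (O.arcs.map (Prod.map Sum.inl Sum.inl)).map (Prod.map (gS O.P) (gS O.P)) := by
      change (O.arcs.map (Prod.map Sum.inl Sum.inl)).map (Prod.map Sum.inl Sum.inl) = _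
      rw [List.map_map, List.map_map]
      rfl
    exact List.Perm.of_eq h
  · have h : ((O.push (i, s)).push (i, !s)).crossings =
        cross (!s) (Sum.inl (Sum.inr false)) (Sum.inl (Sum.inr true)) (gS O.P (Sum.inr false))
          (gS O.P (Sum.inr true)) (O.up i.succ) (O.up i.castSucc) ::
        cross s (gS O.P (Sum.inl (O.lower i.castSucc))) (gS O.P (Sum.inl (O.lower i.succ)))
          (Sum.inl (Sum.inr false)) (Sum.inl (Sum.inr true)) (O.up i.castSucc) (O.up i.succ) ::
        (O.crossings.map (Crossing.map Sum.inl)).map (Crossing.map (gS O.P)) := by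
      have h1 : ((O.push (i, s)).push (i, !s)).crossings =
          (O.push (i, s)).newCrossing (i, !s) ::
          ((O.newCrossing (i, s) :: O.crossings.map (Crossing.map Sum.inl)).map
            (Crossing.map Sum.inl)) := rfl
      have h2 : (O.push (i, s)).newCrossing (i, !s) =
          cross (!s) (Sum.inl (Sum.inr false)) (Sum.inl (Sum.inr true)) (gS O.P (Sum.inr false))
          (gS O.P (Sum.inr true)) (O.up i.succ) (O.up i.castSucc) := by
        change cross (!s) (Sum.inl ((O.push (i, s)).lower i.castSucc))
          (Sum.inl ((O.push (i, s)).lower i.succ)) (Sum.inr false) (Sum.inr true)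
          (O.up (Equiv.swap i.castSucc i.succ i.castSucc))
          (O.up (Equiv.swap i.castSucc i.succ i.succ)) = _
        have e1 : (O.push (i, s)).lower i.castSucc = Sum.inr false := by
          change (if i.castSucc = i.castSucc then _ else _) = _
          rw [if_pos rfl]
        have e2 : (O.push (i, s)).lower i.succ = Sum.inr true := by
          change (if i.succ = i.castSucc then _ else if i.succ = i.succ then _ else _) = _
          rw [if_neg hne.symm, if_pos rfl]
        rw [e1, e2, Equiv.swap_apply_left, Equiv.swap_apply_right]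
        rfl
      refine h1.trans (congrArg₂ List.cons h2 (congrArg₂ List.cons ?_ ?_))
      · exact map_cross _ _ _ _ _ _ _ _
      · exact map_cc O
    exact (List.Perm.of_eq h).trans (List.Perm.swap _ _ _)
  · intro j
    change (if j = i.castSucc then _ else if j = i.succ then _ else Sum.inl ((O.push (i, s)).lower j))
      = gS O.P (if j = i.castSucc then _ else if j = i.succ then _ else _)
    by_cases h1 : j = i.castSucc
    · rw [if_pos h1, if_pos h1]; rfl
    · by_cases h2 : j = i.succ
      · rw [if_neg h1, if_neg h1, if_pos h2, if_pos h2]; rfl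
      · rw [if_neg h1, if_neg h1, if_neg h2, if_neg h2]
        have e : (O.push (i, s)).lower j = Sum.inl (O.lower j) := by
          change (if j = i.castSucc then _ else if j = i.succ then _ else _) = _
          rw [if_neg h1, if_neg h2]
        rw [e]
        rfl
  · intro j
    rfl
  · funext j
    change O.up (Equiv.swap i.castSucc i.succ (Equiv.swap i.castSucc i.succ j)) = O.up j
    rw [Equiv.swap_apply_self]
  · exact gS_inj O.P
  · exact fun h => absurd (Sum.inr.inj (Sum.inl.inj h)) (by decide)
  · exact fun a => gS_ne O.P a false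
  · exact fun a => gS_ne O.P a true
  · rintro ((a | a) | a)
    · exact Or.inl ⟨Sum.inl a, rfl⟩
    · cases a
      · exact Or.inr (Or.inl rfl)
      · exact Or.inr (Or.inr rfl)
    · exact Or.inl ⟨Sum.inr a, rfl⟩

/-- the first contraction -/
def gA (O : Box m) (i : Fin m) : O.P ⊕ Bool → O.P ⊕ Unit
  | Sum.inl p => Sum.inl p
  | Sum.inr false => Sum.inr ()
  | Sum.inr true => Sum.inl (O.lower i.succ)

theorem gA_inj (O : Box m) (i : Fin m) (a b : O.P ⊕ Bool) (h : gA O i a = gA O i b) :
    a = b ∨ (a = Sum.inl (O.lower i.succ) ∧ b = Sum.inr true) ∨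
      (a = Sum.inr true ∧ b = Sum.inl (O.lower i.succ)) := by
  rcases a with a | (_ | _) <;> rcases b with b | (_ | _)
  · left
    exact congrArg _ (Sum.inl.inj h)
  · simp [gA] at h
  · right; left
    exact ⟨congrArg _ (Sum.inl.inj h), rfl⟩
  · simp [gA] at h
  · left; rfl
  · simp [gA] at h
  · right; right
    exact ⟨rfl, congrArg _ (Sum.inl.inj h).symm⟩
  · simp [gA] at h
  · left; rfl

theorem conA (O : Box m) (i : Fin m) : ConB (O1 O i) (O1' O i) := by
  have hne : i.castSucc ≠ i.succ := by
    intro h
    have := congrArg Fin.val h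
    simp at this
  refine ⟨gA O i, Sum.inl (O.lower i.succ), Sum.inr true, O.up i.succ,
    arc (O.up i.castSucc) (Sum.inl (O.lower i.castSucc)) (Sum.inr false) ::
      O.arcs.map (Prod.map Sum.inl Sum.inl), List.Perm.swap _ _ _, ?_, ?_, ?_, ?_, rfl, ?_, rfl, ?_, ?_⟩
  · rw [List.map_cons, map_arc, List.map_map]
    exact List.Perm.refl _
  · change (O.crossings.map (Crossing.map Sum.inl)).Perm
      ((O.crossings.map (Crossing.map Sum.inl)).map (Crossing.map (gA O i)))
    rw [List.map_map]
    exact List.Perm.refl _
  · intro j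
    change (if j = i.castSucc then _ else _) =
      gA O i (if j = i.castSucc then _ else if j = i.succ then _ else _)
    by_cases h1 : j = i.castSucc
    · rw [if_pos h1, if_pos h1]; rfl
    · by_cases h2 : j = i.succ
      · rw [if_neg h1, if_neg h1, if_pos h2, h2]; rfl
      · rw [if_neg h1, if_neg h1, if_neg h2]; rfl
  · intro j
    rfl
  · exact fun h => Sum.inl_ne_inr (a := O.lower i.succ) (b := true) h
  · rintro (p | ⟨⟩)
    · exact ⟨Sum.inl p, rfl⟩
    · exact ⟨Sum.inr false, rfl⟩
  · exact gA_inj O i

/-- the second contraction -/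
def gB (O : Box m) (i : Fin m) : O.P ⊕ Unit → O.P
  | Sum.inl p => p
  | Sum.inr () => O.lower i.castSucc

theorem conB (O : Box m) (i : Fin m) : ConB (O1' O i) O := by
  refine ⟨gB O i, Sum.inl (O.lower i.castSucc), Sum.inr (), O.up i.castSucc,
    O.arcs.map (Prod.map Sum.inl Sum.inl), List.Perm.refl _, ?_, ?_, ?_, ?_, rfl, ?_, rfl, ?_, ?_⟩
  · have h : (O.arcs.map (Prod.map Sum.inl Sum.inl)).map (Prod.map (gB O i) (gB O i)) = O.arcs := by
      rw [List.map_map]
      have : (Prod.map (gB O i) (gB O i)) ∘ (Prod.map (Sum.inl : O.P → O.P ⊕ Unit) Sum.inl) = id := by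
        funext p; rfl
      rw [this, List.map_id]
    exact List.Perm.of_eq h.symm
  · have h : ((O1' O i).crossings).map (Crossing.map (gB O i)) = O.crossings := by
      change (O.crossings.map (Crossing.map Sum.inl)).map (Crossing.map (gB O i)) = _
      rw [List.map_map]
      have : (Crossing.map (gB O i)) ∘ (Crossing.map (Sum.inl : O.P → O.P ⊕ Unit)) = id := by
        funext p; rfl
      rw [this, List.map_id]
    exact List.Perm.of_eq h.symm
  · intro j
    change O.lower j = gB O i (if j = i.castSucc then _ else _)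
    by_cases h1 : j = i.castSucc
    · rw [if_pos h1, h1]; rfl
    · rw [if_neg h1]; rfl
  · intro j
    rfl
  · exact fun h => Sum.inl_ne_inr (a := O.lower i.castSucc) (b := ()) h
  · intro p
    exact ⟨Sum.inl p, rfl⟩
  · rintro (a | ⟨⟩) (b | ⟨⟩) h
    · left; exact congrArg _ h
    · right; left; exact ⟨congrArg _ h, rfl⟩
    · right; right; exact ⟨rfl, congrArg _ h.symm⟩
    · left; rfl

end TR2

theorem t_R2 (hCNB : S_CNB) (hSCB : S_SCB) : S_R2 := by
  intro m O i s w
  exact TR2.leads_trans (hSCB m _ _ (TR2.sec O i s) w)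
    (TR2.leads_trans (hCNB m _ _ (TR2.conA O i) w) (hCNB m _ _ (TR2.conB O i) w))

end Pool.Agent.H867R5.TL
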