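import Pool.Agent.H867R5.TL.Stubs

set_option autoImplicit false

/-! Task SCB: the second Reidemeister move is compatible with drawing a word and closing. -/

namespace Pool.Agent.H867R5.TL

open Pool.Agent.H891R2.Jones Pool.Agent.H832R3.VJ

namespace TSCB

theorem leads_trans {X Y Z : Dia} (h : Leads X Y) (h' : Leads Y Z) : Leads X Z := by
  intro hX
  obtain ⟨hY, h1⟩ := h hX
  obtain ⟨hZ, h2⟩ := h' hY
  exact ⟨hZ, fun v hv => (h1 v hv).trans (h2 v hv)⟩

theorem map_arc {P Q : Type} (g : P → Q) (f : Bool) (p q : P) :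
    Prod.map g g (arc f p q) = arc f (g p) (g q) := by
  cases f <;> rfl

theorem map_cross {P Q : Type} (h : P → Q) (ov : Bool) (a b c d : P) (f g : Bool) :
    Crossing.map h (cross ov a b c d f g) = cross ov (h a) (h b) (h c) (h d) f g := by
  cases ov <;> rfl

theorem closing_map {m : ℕ} (B B' : Box m) (g : B'.P → B.P) (hl : ∀ j, B.lower j = g (B'.lower j))
    (hu : ∀ j, B.upper j = g (B'.upper j)) (hup : B.up = B'.up) :
    B.closing = B'.closing.map (Prod.map g g) := by
  unfold Box.closing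
  rw [List.map_map]
  refine List.map_congr_left fun j _ => ?_
  simp only [Function.comp_apply]
  rw [map_arc, hl, hu, hup]

theorem base (h : S_SEC) (hO : S_ORD) {m : ℕ} (B B' : Box m) (hB : SecB B B') :
    Leads B.close B'.close := by
  obtain ⟨g, t, u, ov, f, f', x₀, x₁, y₀, y₁, A, C, h1, h2, h3, h4, h5, h6, h7, h8, h9, h10, h11,
    h12⟩ := hB
  have e1 : Leads B.close ⟨B.P, B.fin, ⟨(B'.closing ++ A).map (Prod.map g g),
      cross ov (g x₀) (g y₀) t u f f' :: cross (!ov) t u (g x₁) (g y₁) f' f ::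
        C.map (Crossing.map g)⟩⟩ := by
    refine hO B.P B.fin _ _ _ _ ?_ h4
    rw [closing_map B B' g h5 h6 h7, List.map_append]
    exact List.Perm.append_left _ h3
  have e2 := h B.P B'.P B.fin B'.fin g t u ov f f' x₀ x₁ y₀ y₁ (B'.closing ++ A) C h8 h9 h10 h11 h12
  have e3 : Leads ⟨B'.P, B'.fin, ⟨arc f x₀ x₁ :: arc f' y₀ y₁ :: (B'.closing ++ A), C⟩⟩
      B'.close := by
    refine hO B'.P B'.fin _ _ _ _ ?_ h2.symm
    have h13 : (arc f x₀ x₁ :: arc f' y₀ y₁ :: (B'.closing ++ A)).Perm
        (B'.closing ++ (arc f x₀ x₁ :: arc f' y₀ y₁ :: A)) := by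
      have := List.perm_append_comm_assoc [arc f x₀ x₁, arc f' y₀ y₁] B'.closing A
      simpa using this
    exact h13.trans (List.Perm.append_left _ h1.symm)
  exact leads_trans e1 (leads_trans e2 e3)

theorem step {m : ℕ} (B B' : Box m) (hB : SecB B B') (x : Letter m) :
    SecB (B.push x) (B'.push x) := by
  obtain ⟨g, t, u, ov, f, f', x₀, x₁, y₀, y₁, A, C, h1, h2, h3, h4, h5, h6, h7, h8, h9, h10, h11,
    h12⟩ := hB
  refine ⟨Sum.map g id, .inl t, .inl u, ov, f, f', .inl x₀, .inl x₁, .inl y₀, .inl y₁,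
    A.map (Prod.map .inl .inl), B'.newCrossing x :: C.map (Crossing.map .inl),
    ?_, ?_, ?_, ?_, ?_, ?_, ?_, ?_, ?_, ?_, ?_, ?_⟩
  · have := h1.map (Prod.map (Sum.inl : B'.P → B'.P ⊕ Bool) (Sum.inl : B'.P → B'.P ⊕ Bool))
    rw [List.map_cons, List.map_cons, map_arc, map_arc] at this
    exact this
  · exact List.Perm.cons _ (h2.map _)
  · have := h3.map (Prod.map (Sum.inl : B.P → B.P ⊕ Bool) (Sum.inl : B.P → B.P ⊕ Bool))
    rw [List.map_map] at this
    have e0 : (A.map (Prod.map (Sum.inl : B'.P → B'.P ⊕ Bool) (Sum.inl : B'.P → B'.P ⊕ Bool))).map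
        (Prod.map (Sum.map g id : B'.P ⊕ Bool → B.P ⊕ Bool) (Sum.map g id)) =
        A.map (Prod.map (Sum.inl : B.P → B.P ⊕ Bool) (Sum.inl : B.P → B.P ⊕ Bool) ∘
          Prod.map g g) := by
      rw [List.map_map]
      rfl
    rw [← e0] at this
    exact this
  · have e1 := h4.map (Crossing.map (Sum.inl : B.P → B.P ⊕ Bool))
    rw [List.map_cons, List.map_cons, map_cross, map_cross, List.map_map] at e1
    have e2 : Crossing.map (Sum.map g id) (B'.newCrossing x) = B.newCrossing x := by
      unfold Box.newCrossing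
      rw [map_cross, h5, h5, h7]
      rfl
    have e3 : (C.map (Crossing.map (Sum.inl : B'.P → B'.P ⊕ Bool))).map
        (Crossing.map (Sum.map g id : B'.P ⊕ Bool → B.P ⊕ Bool)) =
        C.map (Crossing.map (Sum.inl : B.P → B.P ⊕ Bool) ∘ Crossing.map g) := by
      rw [List.map_map]
      rfl
    have e4 : List.Perm
        (B.newCrossing x :: B.crossings.map (Crossing.map (Sum.inl : B.P → B.P ⊕ Bool)))
        (cross ov (Sum.inl (g x₀)) (Sum.inl (g y₀)) (Sum.inl t) (Sum.inl u) f f' ::
          cross (!ov) (Sum.inl t) (Sum.inl u) (Sum.inl (g x₁)) (Sum.inl (g y₁)) f' f ::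
          Crossing.map (Sum.map g id) (B'.newCrossing x) ::
          (C.map (Crossing.map (Sum.inl : B'.P → B'.P ⊕ Bool))).map
            (Crossing.map (Sum.map g id : B'.P ⊕ Bool → B.P ⊕ Bool))) := by
      rw [e2, e3]
      refine (List.Perm.cons _ e1).trans ?_
      refine (List.Perm.swap _ _ _).trans (List.Perm.cons _ ?_)
      exact List.Perm.swap _ _ _
    exact e4
  · intro j
    change (if j = x.1.castSucc then (Sum.inr false : B.P ⊕ Bool) else if j = x.1.succ then
      .inr true else .inl (B.lower j)) = Sum.map g id (if j = x.1.castSucc then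
      (Sum.inr false : B'.P ⊕ Bool) else if j = x.1.succ then .inr true else .inl (B'.lower j))
    rw [h5]
    split_ifs <;> rfl
  · intro j
    change Sum.inl (B.upper j) = Sum.map g id (Sum.inl (B'.upper j))
    rw [h6]
    rfl
  · change (fun j => B.up (Equiv.swap x.1.castSucc x.1.succ j)) =
      fun j => B'.up (Equiv.swap x.1.castSucc x.1.succ j)
    rw [h7]
  · exact Function.Injective.sumMap h8 Function.injective_id
  · exact fun h => h9 (Sum.inl_injective h)
  · rintro (a | a) h
    · exact h10 a (Sum.inl_injective h)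
    · exact absurd h (by simp)
  · rintro (a | a) h
    · exact h11 a (Sum.inl_injective h)
    · exact absurd h (by simp)
  · rintro (a | a)
    · rcases h12 a with ⟨b, rfl⟩ | rfl | rfl
      · exact Or.inl ⟨.inl b, rfl⟩
      · exact Or.inr (Or.inl rfl)
      · exact Or.inr (Or.inr rfl)
    · exact Or.inl ⟨.inr a, rfl⟩

end TSCB

open TSCB in
theorem t_SCB (h : S_SEC) (hO : S_ORD) : S_SCB := by
  intro m B B' hB w
  induction w generalizing B B' with
  | nil => exact base h hO B B' hB
  | cons x w ih => exact ih _ _ (step B B' hB x)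

end Pool.Agent.H867R5.TL
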