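import Pool.Agent.H867R5.TL.Stubs

set_option autoImplicit false

/-! Task SEC: the second Reidemeister move. -/

namespace Pool.Agent.H867R5.TL.TSEC

open Pool.Agent.H891R2.Jones Pool.Agent.H832R3.VJ

/-- start of the under-strand -/
def us {P : Type} (x : Crossing P) : P := if x.underFwd then x.a else x.c
/-- start of the over-strand -/
def os {P : Type} (x : Crossing P) : P := if x.overFwd then x.b else x.d
/-- end of the under-strand -/
def ue {P : Type} (x : Crossing P) : P := if x.underFwd then x.c else x.a
/-- end of the over-strand -/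
def oe {P : Type} (x : Crossing P) : P := if x.overFwd then x.d else x.b

theorem us_map {P Q : Type} (g : P → Q) (C : List (Crossing P)) :
    (C.map (Crossing.map g)).map us = (C.map us).map g := by
  rw [List.map_map, List.map_map]
  congr 1
  funext x
  rcases x with ⟨a, b, c, d, k, l⟩
  cases k <;> cases l <;> rfl

theorem os_map {P Q : Type} (g : P → Q) (C : List (Crossing P)) :
    (C.map (Crossing.map g)).map os = (C.map os).map g := by
  rw [List.map_map, List.map_map]
  congr 1
  funext x
  rcases x with ⟨a, b, c, d, k, l⟩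
  cases k <;> cases l <;> rfl

theorem ue_map {P Q : Type} (g : P → Q) (C : List (Crossing P)) :
    (C.map (Crossing.map g)).map ue = (C.map ue).map g := by
  rw [List.map_map, List.map_map]
  congr 1
  funext x
  rcases x with ⟨a, b, c, d, k, l⟩
  cases k <;> cases l <;> rfl

theorem oe_map {P Q : Type} (g : P → Q) (C : List (Crossing P)) :
    (C.map (Crossing.map g)).map oe = (C.map oe).map g := by
  rw [List.map_map, List.map_map]
  congr 1
  funext x
  rcases x with ⟨a, b, c, d, k, l⟩
  cases k <;> cases l <;> rfl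

theorem fst_map {P Q : Type} (g : P → Q) (A : List (P × P)) :
    (A.map (Prod.map g g)).map Prod.fst = (A.map Prod.fst).map g := by
  rw [List.map_map, List.map_map]
  rfl

theorem snd_map {P Q : Type} (g : P → Q) (A : List (P × P)) :
    (A.map (Prod.map g g)).map Prod.snd = (A.map Prod.snd).map g := by
  rw [List.map_map, List.map_map]
  rfl

theorem starts_eq {P : Type} (D : Diagram P) :
    D.starts = D.arcs.map Prod.fst ++ D.crossings.map us ++ D.crossings.map os := rfl

theorem ends_eq {P : Type} (D : Diagram P) :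
    D.ends = D.arcs.map Prod.snd ++ D.crossings.map ue ++ D.crossings.map oe := rfl

/-- the right side of the second move -/
def big {P : Type} (A : List (P × P)) (C : List (Crossing P)) (ov f g : Bool) (x₀ x₁ y₀ y₁ : P) :
    Diagram (P ⊕ Bool) :=
  ⟨A.map (Prod.map Sum.inl Sum.inl),
    cross ov (.inl x₀) (.inl y₀) (.inr true) (.inr false) f g ::
      cross (!ov) (.inr true) (.inr false) (.inl x₁) (.inl y₁) g f ::
      C.map (Crossing.map Sum.inl)⟩

theorem starts_perm {P : Type} (A : List (P × P)) (C : List (Crossing P)) (ov f g : Bool)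
    (x₀ x₁ y₀ y₁ : P) :
    ((big A C ov f g x₀ x₁ y₀ y₁).starts).Perm
      (((⟨arc f x₀ x₁ :: arc g y₀ y₁ :: A, C⟩ : Diagram P).starts).map Sum.inl ++
        [Sum.inr true, Sum.inr false]) := by
  rw [starts_eq, starts_eq, ← Multiset.coe_eq_coe]
  simp only [big, List.map_cons, us_map, os_map, fst_map, List.map_append]
  cases ov <;> cases f <;> cases g <;>
  · simp only [cross, arc, us, os, Bool.not_true, Bool.not_false, if_true, if_false,
      ← Multiset.coe_add, ← Multiset.cons_coe, ← Multiset.singleton_add, Bool.false_eq_true,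
      Multiset.coe_nil]
    abel

theorem ends_perm {P : Type} (A : List (P × P)) (C : List (Crossing P)) (ov f g : Bool)
    (x₀ x₁ y₀ y₁ : P) :
    ((big A C ov f g x₀ x₁ y₀ y₁).ends).Perm
      (((⟨arc f x₀ x₁ :: arc g y₀ y₁ :: A, C⟩ : Diagram P).ends).map Sum.inl ++
        [Sum.inr true, Sum.inr false]) := by
  rw [ends_eq, ends_eq, ← Multiset.coe_eq_coe]
  simp only [big, List.map_cons, ue_map, oe_map, snd_map, List.map_append]
  cases ov <;> cases f <;> cases g <;>
  · simp only [cross, arc, ue, oe, Bool.not_true, Bool.not_false, if_true, if_false,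
      ← Multiset.coe_add, ← Multiset.cons_coe, ← Multiset.singleton_add, Bool.false_eq_true,
      Multiset.coe_nil]
    abel

theorem count_inl {P Q : Type} [DecidableEq P] [DecidableEq Q] (i : P → Q)
    (hi : Function.Injective i) (l : List P) (E : List Q) (hE : ∀ a, i a ∉ E) (a : P) :
    (l.map i ++ E).count (i a) = l.count a := by
  rw [List.count_append, List.count_map_of_injective _ _ hi, List.count_eq_zero_of_not_mem (hE a),
    add_zero]

theorem closed_aux {P Q : Type} [DecidableEq P] [DecidableEq Q] (i : P → Q)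
    (hi : Function.Injective i) (D : Diagram Q) (D' : Diagram P) (E : List Q) (hE : ∀ a, i a ∉ E)
    (h1 : D.starts.Perm (D'.starts.map i ++ E)) (h2 : D.ends.Perm (D'.ends.map i ++ E))
    (h : D.IsClosed) : D'.IsClosed := by
  intro p
  have h3 := h (i p)
  rw [h1.count_eq, h2.count_eq, count_inl i hi _ _ hE, count_inl i hi _ _ hE] at h3
  exact h3

end Pool.Agent.H867R5.TL.TSEC

namespace Pool.Agent.H867R5.TL

open Pool.Agent.H891R2.Jones Pool.Agent.H832R3.VJ TSEC

theorem t_SEC (_hO : S_ORD) (hR : S_REL) : S_SEC := by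
  classical
  intro P P' hP hP' g t u ov f f' x₀ x₁ y₀ y₁ A C hg htu hgt hgu hall
  have hQ : Finite (P' ⊕ Bool) := inferInstance
  -- the relabelling
  obtain ⟨e, he1, he2, he3⟩ : ∃ e : P ≃ P' ⊕ Bool, (∀ a, e (g a) = Sum.inl a) ∧
      e t = Sum.inr true ∧ e u = Sum.inr false := by
    let h : P' ⊕ Bool → P := Sum.elim g (fun b => if b then t else u)
    have hb : Function.Bijective h := by
      constructor
      · rintro (a | a) (b | b) hab
        · exact congrArg Sum.inl (hg hab)
        · exfalso
          cases b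
          · exact hgu a (by simpa [h] using hab)
          · exact hgt a (by simpa [h] using hab)
        · exfalso
          cases a
          · exact hgu b (by simpa [h] using hab.symm)
          · exact hgt b (by simpa [h] using hab.symm)
        · cases a <;> cases b
          · rfl
          · exact absurd (by simpa [h] using hab.symm) htu
          · exact absurd (by simpa [h] using hab) htu
          · rfl
      · intro a
        rcases hall a with ⟨b, hb⟩ | ha | ha
        · exact ⟨Sum.inl b, hb⟩
        · exact ⟨Sum.inr true, ha.symm⟩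
        · exact ⟨Sum.inr false, ha.symm⟩
    refine ⟨(Equiv.ofBijective h hb).symm, fun a => ?_, ?_, ?_⟩
    · rw [Equiv.symm_apply_eq]; rfl
    · rw [Equiv.symm_apply_eq]; rfl
    · rw [Equiv.symm_apply_eq]; rfl
  intro hX
  obtain ⟨h1, h2⟩ := hR P (P' ⊕ Bool) hP hQ e _ hX
  have hD : mapD e (⟨A.map (Prod.map g g), cross ov (g x₀) (g y₀) t u f f' ::
      cross (!ov) t u (g x₁) (g y₁) f' f :: C.map (Crossing.map g)⟩ : Diagram P) =
      big A C ov f f' x₀ x₁ y₀ y₁ := by
    have hc : ∀ (o p q : Bool) (w z w' z' : P), Crossing.map e (cross o w z w' z' p q) =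
        cross o (e w) (e z) (e w') (e z') p q := by
      intro o p q w z w' z'
      cases o <;> rfl
    have hA : (A.map (Prod.map g g)).map (Prod.map e e) = A.map (Prod.map Sum.inl Sum.inl) := by
      rw [List.map_map]
      congr 1
      funext x
      exact Prod.ext (he1 _) (he1 _)
    have hC : (C.map (Crossing.map g)).map (Crossing.map e) = C.map (Crossing.map Sum.inl) := by
      rw [List.map_map]
      congr 1
      funext x
      simp only [Function.comp, Crossing.map, he1]
    unfold mapD big
    simp only [List.map_cons, hc, he1, he2, he3]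
    rw [hA, hC]
  rw [hD] at h1 h2
  have hmove : Move ⟨P', hP', ⟨arc f x₀ x₁ :: arc f' y₀ y₁ :: A, C⟩⟩
      ⟨P' ⊕ Bool, hQ, big A C ov f f' x₀ x₁ y₀ y₁⟩ :=
    Move.second hP' hQ ⟨A, C⟩ ov f f' x₀ x₁ y₀ y₁
  have hY : Dia.IsLink ⟨P', hP', ⟨arc f x₀ x₁ :: arc f' y₀ y₁ :: A, C⟩⟩ := by
    refine ⟨⟨x₀⟩, ?_⟩
    exact @closed_aux P' (P' ⊕ Bool) (fun a b => Classical.propDecidable (a = b))
      (fun a b => Classical.propDecidable (a = b)) Sum.inl Sum.inl_injective _ _ _ (by simp)
      (starts_perm A C ov f f' x₀ x₁ y₀ y₁) (ends_perm A C ov f f' x₀ x₁ y₀ y₁) h1.2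
  exact ⟨hY, fun v hv => (h2 v hv).trans (hv _ _ hY h1 hmove).symm⟩

end Pool.Agent.H867R5.TL
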