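import Pool.Agent.H867R5.TL.Stubs

set_option autoImplicit false

namespace Pool.Agent.H867R5.TL

open Pool.Agent.H891R2.Jones Pool.Agent.H832R3.VJ

theorem t_VAL (hWRD : S_WRD) (hNEW : S_NEW) (hKER : S_KER) (hVAN : S_VAN) (hLAT : S_LAT)
    (hPLY : S_PLY) : S_VAL := by
  intro m k d v hv O hO b
  obtain ⟨hK1, hK2⟩ := hKER m
  obtain ⟨c, hc⟩ := hNEW (FreeGroup (Fin m)) (Module.End ℤ (FreeGroup (Fin m) → ℤ)) (rho m)
    (Submodule.span ℤ (gens m)) d (ev v O) k (fun j => FreeGroup.mk (pureWord (b j)))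
    hK1 (fun j => hK2 (b j)) (hVAN m d v hv O hO)
  obtain ⟨p, hp, hp2⟩ := hPLY k d c
  refine ⟨p, hp, fun n => ?_⟩
  rw [hp2 n, ← hc n]
  congr 1
  obtain ⟨h1, h2⟩ := hLAT m k b n
  obtain ⟨_, h3⟩ := hWRD m v hv.1 O hO _ h1
  rw [lattice, h3, h2]
  simp [ev, rho]

end Pool.Agent.H867R5.TL
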