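import Pool.Agent.H867R5.TL.Stubs

set_option autoImplicit false

namespace Pool.Agent.H867R5.TL

open Pool.Agent.H891R2.Jones Pool.Agent.H832R3.VJ
open scoped Pointwise

namespace TVAN

variable {m : ℕ}

lemma shift (v : Dia → ℤ) (O : Box m) (S : List (FreeGroup (Fin m) × Fin m))
    (g h1 : FreeGroup (Fin m)) :
    ∃ (S' : List (FreeGroup (Fin m) × Fin m)) (g' : FreeGroup (Fin m)), S'.length = S.length ∧
      ∀ y, altG v O (y * h1) S g = altG v O y S' g' := by
  cases S with
  | nil => exact ⟨[], h1 * g, rfl, fun y => by simp only [altG, mul_assoc]⟩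
  | cons t S =>
    refine ⟨(h1 * t.1, t.2) :: S, g, rfl, fun y => ?_⟩
    simp only [altG, mul_assoc]

lemma rep (v : Dia → ℤ) (O : Box m) (r : ℕ) : ∀ a ∈ (gens m) ^ r,
    ∃ (S : List (FreeGroup (Fin m) × Fin m)) (g : FreeGroup (Fin m)), S.length = r ∧
      ∀ x, a (phi v O) x = altG v O x S g := by
  induction r with
  | zero =>
    intro a ha
    rw [pow_zero, Set.mem_one] at ha
    refine ⟨[], 1, rfl, fun x => ?_⟩
    rw [ha]
    simp [altG]
  | succ r ih =>
    intro a ha
    rw [pow_succ'] at ha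
    obtain ⟨b, hb, c, hc, rfl⟩ := Set.mem_mul.1 ha
    obtain ⟨S, g, hS, hSg⟩ := ih c hc
    obtain ⟨g1, h1, i, rfl⟩ := hb
    obtain ⟨S', g', hl, hS'⟩ := shift v O S g h1
    refine ⟨(g1, i) :: S', g', by rw [List.length_cons, hl, hS], fun x => ?_⟩
    have h2 : (rho m g1 * (rho m (FreeGroup.of i) - rho m (FreeGroup.of i)⁻¹) * rho m h1 * c)
        (phi v O) x = c (phi v O) (x * g1 * FreeGroup.of i * h1) -
          c (phi v O) (x * g1 * (FreeGroup.of i)⁻¹ * h1) := rfl
    rw [h2, hSg, hSg, hS', hS']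
    rfl

end TVAN

theorem t_VAN (hA : S_ALG) : S_VAN := by
  intro m d v hv O hO a ha
  rw [Submodule.span_pow] at ha
  induction ha using Submodule.span_induction with
  | mem x hx =>
    obtain ⟨S, g, hS, hSg⟩ := TVAN.rep v O (d + 1) x hx
    have h1 : ev v O x = x (phi v O) 1 := rfl
    rw [h1, hSg]
    exact hA m d v hv O hO S 1 g hS
  | zero => exact map_zero _
  | add x y _ _ hx hy => rw [map_add, hx, hy, add_zero]
  | smul c x _ hx => rw [map_zsmul, hx, smul_zero]

end Pool.Agent.H867R5.TL
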