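import Pool.Agent.H867R5.TL.Stubs

set_option autoImplicit false

/-! Task WRD: the value on a pure word depends only on the element of the free group. -/

namespace Pool.Agent.H867R5.TL

open Pool.Agent.H891R2.Jones Pool.Agent.H832R3.VJ

namespace TWRD

theorem permG_mk {m : ℕ} (w : List (Letter m)) : permG (FreeGroup.mk w) = perm w := by
  unfold permG perm
  rw [FreeGroup.lift_mk]
  congr 1
  apply List.map_congr_left
  rintro ⟨i, b⟩ _
  cases b
  · simp only [cond_false, Equiv.swap_inv]
  · simp only [cond_true]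

theorem pushList_append {m : ℕ} (O : Box m) (w w' : List (Letter m)) :
    O.pushList (w ++ w') = (O.pushList w).pushList w' := by
  unfold Box.pushList
  rw [List.foldl_append]

theorem mk_red {m : ℕ} {L L' : List (Letter m)} (h : FreeGroup.Red L L') :
    FreeGroup.mk L = FreeGroup.mk L' :=
  FreeGroup.Red.exact.2 ⟨L', h, FreeGroup.Red.refl⟩

theorem step {m : ℕ} (hR2 : S_R2) (hCLO : S_CLO) (v : Dia → ℤ) (hv : Invariant v) (O : Box m)
    (hO : O.close.IsLink) {L L' : List (Letter m)} (h : FreeGroup.Red.Step L L')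
    (hp : perm L = 1) : v (O.pushList L).close = v (O.pushList L').close := by
  cases h with
  | @not L₁ L₂ x b =>
    have h1 := hCLO m O hO _ hp
    rw [pushList_append] at h1 ⊢
    rw [pushList_append]
    exact ((hR2 m (O.pushList L₁) x b L₂) h1).2 v hv

theorem red {m : ℕ} (hR2 : S_R2) (hCLO : S_CLO) (v : Dia → ℤ) (hv : Invariant v) (O : Box m)
    (hO : O.close.IsLink) {L L' : List (Letter m)} (h : FreeGroup.Red L L')
    (hp : perm L = 1) : v (O.pushList L).close = v (O.pushList L').close := by
  induction h with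
  | refl => rfl
  | tail h1 h2 ih =>
    rw [ih]
    apply step hR2 hCLO v hv O hO h2
    rw [← permG_mk, ← mk_red h1, permG_mk, hp]

end TWRD

open TWRD in
theorem t_WRD (hR2 : S_R2) (hCLO : S_CLO) : S_WRD := by
  intro m v hv O hO w hw
  have h1 : permG (FreeGroup.mk w) = 1 := by rw [permG_mk, hw]
  refine ⟨h1, ?_⟩
  unfold phi
  rw [if_pos h1, FreeGroup.toWord_mk]
  exact red hR2 hCLO v hv O hO FreeGroup.reduce.red hw

end Pool.Agent.H867R5.TL
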