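import Pool.Agent.H867R5.TL.Stubs
import Pool.Agent.H867R5.TL.T_CON

set_option autoImplicit false

/-! Pure braids in the box give links. -/

namespace Pool.Agent.H867R5.TL.CLOX

open Pool.Agent.H891R2.Jones Pool.Agent.H832R3.VJ Pool.Agent.H867R5.TL Pool.Agent.H867R5.TL.TCON

variable {m : ℕ}

open Classical in
noncomputable def dl {P : Type} (a q : P) : ℤ := if a = q then 1 else 0

theorem cnt_cons' {P : Type} (a q : P) (l : List P) : (cnt (a :: l) q : ℤ) = dl a q + cnt l q := by
  unfold dl
  split_ifs with h
  · subst h; rw [cnt_cons_self]; push_cast; ring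
  · rw [cnt_cons_ne h]; ring

theorem cnt_map_sum {P α : Type} (g : α → P) (q : P) (l : List α) :
    (cnt (l.map g) q : ℤ) = (l.map fun j => dl (g j) q).sum := by
  induction l with
  | nil => simp [cnt_nil]
  | cons a l ih => rw [List.map_cons, cnt_cons', ih, List.map_cons, List.sum_cons]

/-- number of starts (`f = true`) or ends at `q` if the box is closed by the permutation `π` -/
noncomputable def tot (O : Box m) (π : Equiv.Perm (Fin (m + 1))) (f : Bool) (q : O.P) : ℤ :=
  (∑ j, if O.up j = f then dl (O.lower j) q else dl (O.upper (π j)) q) +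
    cnt (pts f O.arcs O.crossings) q

def Good (O : Box m) (π : Equiv.Perm (Fin (m + 1))) : Prop := ∀ f q, tot O π f q = 1

open Classical in
theorem good_one (O : Box m) : Good O 1 ↔ O.close.D.IsClosed := by
  have key : ∀ f q, (cnt (pts f (O.closing ++ O.arcs) O.crossings) q : ℤ) = tot O 1 f q := by
    intro f q
    have h1 : pts f (O.closing ++ O.arcs) O.crossings =
        O.closing.map (aE f) ++ pts f O.arcs O.crossings := by
      simp [pts]
    rw [h1, cnt_append, Nat.cast_add]
    unfold tot Box.closing
    congr 1
    rw [List.map_map, cnt_map_sum, Fin.sum_univ_def]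
    congr 1
    refine List.map_congr_left fun j _ => ?_
    simp only [Function.comp, Equiv.Perm.coe_one, id]
    split_ifs with h
    · rw [h, aE_arc]
    · have h' : f = !(O.up j) := by cases hu : O.up j <;> cases f <;> simp_all
      rw [h', aE_arc']
  unfold Box.close
  rw [closed_iff]
  constructor
  · intro h f q
    have := h f q
    rw [← key] at this
    exact_mod_cast this
  · intro h f q
    have := h f q
    rw [← key]
    exact_mod_cast this

theorem dl_inl {P Q : Type} (a q : P) : dl (Sum.inl a : P ⊕ Q) (Sum.inl q) = dl a q := by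
  unfold dl
  by_cases h : a = q
  · rw [if_pos h, if_pos (by rw [h])]
  · rw [if_neg h, if_neg fun h' => h (Sum.inl.inj h')]

theorem dl_inlr {P Q : Type} (a : P) (q : Q) : dl (Sum.inl a : P ⊕ Q) (Sum.inr q) = 0 := by
  unfold dl; simp

theorem dl_inrl {P Q : Type} (a : Q) (q : P) : dl (Sum.inr a : P ⊕ Q) (Sum.inl q) = 0 := by
  unfold dl; simp

theorem dl_two {P : Type} (b : Bool) :
    dl (Sum.inr true : P ⊕ Bool) (Sum.inr b) + dl (Sum.inr false : P ⊕ Bool) (Sum.inr b) = 1 := by
  unfold dl; cases b <;> simp

theorem cnt_inl {P Q : Type} (l : List P) (q : P) :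
    cnt (l.map (Sum.inl : P → P ⊕ Q)) (Sum.inl q) = cnt l q := by
  have : (cnt (l.map (Sum.inl : P → P ⊕ Q)) (Sum.inl q) : ℤ) = cnt l q := by
    rw [cnt_map_sum]
    have := cnt_map_sum (id : P → P) q l
    rw [List.map_id] at this
    rw [this]
    congr 1
    refine List.map_congr_left fun j _ => dl_inl _ _
  exact_mod_cast this

theorem cnt_inlr {P Q : Type} (l : List P) (q : Q) :
    cnt (l.map (Sum.inl : P → P ⊕ Q)) (Sum.inr q) = 0 := by
  rw [cnt_eq_zero]; simp

/-- the sum for the box after a crossing -/
theorem tot_push (O : Box m) (i : Fin m) (s : Bool) (π : Equiv.Perm (Fin (m + 1))) (f : Bool)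
    (q : O.P ⊕ Bool) :
    (∑ j, if O.up (Equiv.swap i.castSucc i.succ j) = f then
        dl (if j = i.castSucc then Sum.inr false else if j = i.succ then Sum.inr true
          else Sum.inl (O.lower j)) q
        else dl (Sum.inl (O.upper (π (Equiv.swap i.castSucc i.succ j)))) q) +
      (cnt (pts f (O.arcs.map (Prod.map (Sum.inl : O.P → O.P ⊕ Bool) Sum.inl))
        (O.newCrossing (i, s) :: O.crossings.map (Crossing.map Sum.inl))) q : ℤ) =
      (∑ j, if O.up j = f then dl (Sum.inl (O.lower j)) q else dl (Sum.inl (O.upper (π j))) q) +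
      cnt ((pts f O.arcs O.crossings).map Sum.inl) q + dl (Sum.inr true) q +
      dl (Sum.inr false) q := by
  have hne : i.castSucc ≠ i.succ := (Fin.castSucc_lt_succ).ne
  rw [pts_cons_crossing_count, pts_map]
  have h2 : ((cnt [uE f (O.newCrossing (i, s))] q : ℤ) + cnt [oE f (O.newCrossing (i, s))] q) =
      (if O.up i.castSucc = f then dl (Sum.inl (O.lower i.castSucc)) q else dl (Sum.inr true) q) +
      (if O.up i.succ = f then dl (Sum.inl (O.lower i.succ)) q else dl (Sum.inr false) q) := by
    rw [cnt_cons', cnt_cons', cnt_nil]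
    unfold Box.newCrossing cross uE oE
    cases s <;> cases hc : O.up i.castSucc <;> cases hs : O.up i.succ <;> cases f <;>
      simp [hc, hs, add_comm]
  have h3 : (∑ j, if O.up (Equiv.swap i.castSucc i.succ j) = f then
        dl (if j = i.castSucc then Sum.inr false else if j = i.succ then Sum.inr true
          else Sum.inl (O.lower j)) q
        else dl (Sum.inl (O.upper (π (Equiv.swap i.castSucc i.succ j)))) q) =
      ∑ j, if O.up j = f then dl (if j = i.castSucc then Sum.inr true else
        if j = i.succ then Sum.inr false else Sum.inl (O.lower j)) q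
        else dl (Sum.inl (O.upper (π j))) q := by
    rw [← Equiv.sum_comp (Equiv.swap i.castSucc i.succ)]
    refine Finset.sum_congr rfl fun j _ => ?_
    rw [Equiv.swap_apply_self]
    have hlo : (if Equiv.swap i.castSucc i.succ j = i.castSucc then (Sum.inr false : O.P ⊕ Bool)
        else if Equiv.swap i.castSucc i.succ j = i.succ then Sum.inr true else
          Sum.inl (O.lower (Equiv.swap i.castSucc i.succ j))) =
        (if j = i.castSucc then Sum.inr true else
        if j = i.succ then Sum.inr false else Sum.inl (O.lower j)) := by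
      by_cases hj : j = i.castSucc
      · subst hj
        rw [Equiv.swap_apply_left, if_neg hne.symm, if_pos rfl, if_pos rfl]
      · by_cases hj' : j = i.succ
        · subst hj'
          rw [Equiv.swap_apply_right, if_pos rfl, if_neg hne.symm, if_pos rfl]
        · rw [Equiv.swap_apply_of_ne_of_ne hj hj', if_neg hj, if_neg hj', if_neg hj, if_neg hj']
    rw [hlo]
  have h4 : (∑ j, if O.up j = f then dl (if j = i.castSucc then Sum.inr true else
        if j = i.succ then Sum.inr false else Sum.inl (O.lower j)) q
        else dl (Sum.inl (O.upper (π j))) q) =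
      (∑ j, if O.up j = f then dl (Sum.inl (O.lower j)) q else dl (Sum.inl (O.upper (π j))) q) +
      (if O.up i.castSucc = f then dl (Sum.inr true) q - dl (Sum.inl (O.lower i.castSucc)) q
        else 0) +
      (if O.up i.succ = f then dl (Sum.inr false) q - dl (Sum.inl (O.lower i.succ)) q
        else 0) := by
    have e1 := Finset.sum_ite_eq' (Finset.univ : Finset (Fin (m + 1))) i.castSucc
      (fun j => if O.up j = f then dl (Sum.inr true) q - dl (Sum.inl (O.lower j)) q else 0)
    have e2 := Finset.sum_ite_eq' (Finset.univ : Finset (Fin (m + 1))) i.succ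
      (fun j => if O.up j = f then dl (Sum.inr false) q - dl (Sum.inl (O.lower j)) q else 0)
    rw [if_pos (Finset.mem_univ _)] at e1 e2
    rw [← e1, ← e2, ← Finset.sum_add_distrib, ← Finset.sum_add_distrib]
    refine Finset.sum_congr rfl fun j _ => ?_
    by_cases hj : j = i.castSucc
    · have hj' : j ≠ i.succ := by rw [hj]; exact hne
      rw [if_pos hj, if_pos hj, if_neg hj']
      split_ifs <;> ring
    · rw [if_neg hj, if_neg hj]
      by_cases hj' : j = i.succ
      · rw [if_pos hj', if_pos hj']
        split_ifs <;> ring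
      · rw [if_neg hj', if_neg hj']
        split_ifs <;> ring
  rw [Nat.cast_add, Nat.cast_add, add_assoc ((cnt _ q : ℕ) : ℤ), h2, h3, h4]
  split_ifs <;> ring

theorem good_push (O : Box m) (x : Letter m) (π : Equiv.Perm (Fin (m + 1))) (h : Good O π) :
    Good (O.push x) (π * Equiv.swap x.1.castSucc x.1.succ) := by
  obtain ⟨i, s⟩ := x
  intro f q
  refine (tot_push O i s π f q).trans ?_
  rcases q with q | b
  · have := h f q
    unfold tot at this
    rw [cnt_inl, dl_inrl, dl_inrl, add_zero, add_zero, ← this]
    congr 1
    refine Finset.sum_congr rfl fun j _ => ?_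
    rw [dl_inl, dl_inl]
  · rw [cnt_inlr, add_assoc, dl_two, Finset.sum_eq_zero]
    · simp
    · intro j _
      rw [dl_inlr, dl_inlr, ite_self]

theorem good_pushList (w : List (Letter m)) : ∀ (O : Box m) (π : Equiv.Perm (Fin (m + 1))),
    Good O π → Good (O.pushList w) (π * perm w) := by
  induction w with
  | nil => intro O π h; simpa [perm, Box.pushList] using h
  | cons x w ih =>
    intro O π h
    have := ih (O.push x) _ (good_push O x π h)
    have e : π * perm (x :: w) = π * Equiv.swap x.1.castSucc x.1.succ * perm w := by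
      simp [perm, mul_assoc]
    rw [e]
    exact this

theorem nonempty_pushList (w : List (Letter m)) : ∀ (O : Box m), Nonempty O.P →
    Nonempty (O.pushList w).P := by
  induction w with
  | nil => intro O h; exact h
  | cons x w ih => intro O h; exact ih (O.push x) ⟨Sum.inr true⟩

theorem t_CLO : S_CLO := by
  intro m O hO w hw
  refine ⟨nonempty_pushList w O hO.1, ?_⟩
  have h := good_pushList w O 1 ((good_one O).2 hO.2)
  rw [hw, mul_one] at h
  exact (good_one _).1 h

end Pool.Agent.H867R5.TL.CLOX
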