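import Pool.Agent.H867R5.TL.Stubs

set_option autoImplicit false

namespace Pool.Agent.H867R5.TL.ULAT

open Pool.Agent.H867R5.TL

variable {m : ℕ}

theorem perm_nil : perm ([] : List (Letter m)) = 1 := rfl

theorem perm_append (a b : List (Letter m)) : perm (a ++ b) = perm a * perm b := by
  simp [perm]

theorem perm_cons (x : Letter m) (b : List (Letter m)) :
    perm (x :: b) = Equiv.swap x.1.castSucc x.1.succ * perm b := by
  simp [perm]

theorem perm_flatMap_one {α : Type*} (l : List α) (f : α → List (Letter m))
    (h : ∀ a, perm (f a) = 1) : perm (l.flatMap f) = 1 := by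
  induction l with
  | nil => rfl
  | cons a l ih => rw [List.flatMap_cons, perm_append, h, ih, one_mul]

theorem perm_rep (w : List (Letter m)) (h : perm w = 1) (n : ℕ) :
    perm (List.replicate n w).flatten = 1 := by
  induction n with
  | zero => rfl
  | succ n ih => rw [List.replicate_succ, List.flatten_cons, perm_append, h, ih, one_mul]

theorem perm_inv (w : List (Letter m)) : perm (inv w) = (perm w)⁻¹ := by
  induction w with
  | nil => simp [inv, perm]
  | cons x w ih =>
    have : inv (x :: w) = inv w ++ [(x.1, !x.2)] := by simp [inv]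
    rw [this, perm_append, ih, perm_cons, perm_cons, perm_nil, mul_inv_rev, Equiv.swap_inv]
    simp

theorem perm_pure (b : List (List (Letter m) × Letter m)) : perm (pureWord b) = 1 := by
  unfold pureWord
  apply perm_flatMap_one
  intro t
  rw [perm_append, perm_append, perm_inv, perm_cons, perm_cons, perm_nil, mul_one,
    Equiv.swap_mul_self, mul_one, mul_inv_cancel]

theorem perm_wpow (w : List (Letter m)) (h : perm w = 1) (n : ℤ) : perm (wpow w n) = 1 := by
  unfold wpow
  split_ifs
  · exact perm_rep w h _
  · exact perm_rep _ (by rw [perm_inv, h, inv_one]) _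

theorem mk_append (a b : List (Letter m)) :
    FreeGroup.mk (a ++ b) = FreeGroup.mk a * FreeGroup.mk b := by
  rw [FreeGroup.mul_mk]

theorem mk_inv (w : List (Letter m)) : FreeGroup.mk (inv w) = (FreeGroup.mk w)⁻¹ := by
  rw [FreeGroup.inv_mk]; rfl

theorem mk_rep (w : List (Letter m)) (n : ℕ) :
    FreeGroup.mk (List.replicate n w).flatten = FreeGroup.mk w ^ n := by
  induction n with
  | zero => rfl
  | succ n ih => rw [List.replicate_succ, List.flatten_cons, mk_append, ih, pow_succ']

theorem mk_wpow (w : List (Letter m)) (n : ℤ) :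
    FreeGroup.mk (wpow w n) = FreeGroup.mk w ^ n := by
  unfold wpow
  split_ifs with h
  · obtain ⟨k, rfl⟩ := Int.eq_ofNat_of_zero_le h
    rw [mk_rep]; simp
  · have h' : 0 ≤ -n := by omega
    obtain ⟨k, hk⟩ := Int.eq_ofNat_of_zero_le h'
    rw [mk_rep, mk_inv]
    have hn : n = -(k : ℤ) := by omega
    subst hn
    rw [neg_neg, Int.toNat_natCast, zpow_neg, zpow_natCast, inv_pow]

theorem t_LAT : S_LAT := by
  intro m k b n
  refine ⟨perm_flatMap_one _ _ fun j => perm_wpow _ (perm_pure _) _, ?_⟩
  induction List.finRange k with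
  | nil => rfl
  | cons a l ih => rw [List.flatMap_cons, mk_append, ih, mk_wpow, List.map_cons, List.prod_cons]

end Pool.Agent.H867R5.TL.ULAT
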