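import Pool.Agent.H867R5.TL.Fin
import Pool.Agent.H867R5.TL.T_ALG
import Pool.Agent.H867R5.TL.T_BAS
import Pool.Agent.H867R5.TL.T_CNB
import Pool.Agent.H867R5.TL.T_CNT
import Pool.Agent.H867R5.TL.T_CON
import Pool.Agent.H867R5.TL.T_KER
import Pool.Agent.H867R5.TL.T_NEW
import Pool.Agent.H867R5.TL.T_NOE
import Pool.Agent.H867R5.TL.T_PLY
import Pool.Agent.H867R5.TL.T_R2
import Pool.Agent.H867R5.TL.T_SCB
import Pool.Agent.H867R5.TL.T_SEC
import Pool.Agent.H867R5.TL.T_SNG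
import Pool.Agent.H867R5.TL.T_VAL
import Pool.Agent.H867R5.TL.T_VAN
import Pool.Agent.H867R5.TL.T_WRD
import Pool.Agent.H867R5.TL.U_CLO
import Pool.Agent.H867R5.TL.U_LAT

set_option autoImplicit false

/-! All steps together. -/

namespace Pool.Agent.H867R5.TL

open CLOX (t_CLO)
open ULAT (t_LAT)

theorem a_CON : S_CON := t_CON t_ORD t_TRN t_REL
theorem a_SEC : S_SEC := t_SEC t_ORD t_REL
theorem a_R2 : S_R2 := t_R2 (t_CNB a_CON t_ORD) (t_SCB a_SEC t_ORD)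
theorem a_SNG : S_SNG := t_SNG t_ORD t_TRN t_CLO
theorem a_WRD : S_WRD := t_WRD a_R2 t_CLO
theorem a_ALG : S_ALG := t_ALG a_SNG a_WRD t_CLO
theorem a_VAL : S_VAL := t_VAL a_WRD t_NEW t_KER (t_VAN a_ALG) t_LAT t_PLY

end Pool.Agent.H867R5.TL
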