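import Pool.Agent.H832R3.VJ.Defs

set_option autoImplicit false

/-!
# Twist lattices of links

A box in a link diagram is filled with powers of pure braids.  Diagrams, moves and Vassiliev
invariants are those of `Pool.Agent.H832R3.VJ.Defs`.
-/

namespace Pool.Agent.H867R5.TL

open Pool.Agent.H891R2.Jones Pool.Agent.H832R3.VJ

/-- The part of an oriented link diagram outside a box through which `m + 1` strands run: finite
set of marked points, arcs and crossings outside the box; `lower j` (`upper j`) is the marked point
at the place `j` of the lower (upper) side of the box; `up j = true` if the strand at the place `j`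
of the lower side runs upwards. -/
structure Box (m : ℕ) : Type 1 where
  P : Type
  fin : Finite P
  arcs : List (P × P)
  crossings : List (Crossing P)
  lower : Fin (m + 1) → P
  upper : Fin (m + 1) → P
  up : Fin (m + 1) → Bool

/-- A letter `(i, s)` of a braid word: the strands at the places `i` and `i + 1` cross; `s = true`
if the strand from the lower left to the upper right is the over-strand.  `(i, false)` is the
inverse of `(i, true)`. -/
abbrev Letter (m : ℕ) : Type := Fin m × Bool

namespace Box

variable {m : ℕ}

/-- the arcs which close the box by vertical strands without crossings -/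
def closing (O : Box m) : List (O.P × O.P) :=
  (List.finRange (m + 1)).map (fun j => arc (O.up j) (O.lower j) (O.upper j))

/-- fill the box with vertical strands without crossings -/
def close (O : Box m) : Dia := ⟨O.P, O.fin, ⟨O.closing ++ O.arcs, O.crossings⟩⟩

/-- the crossing of the strands at the places `i`, `i + 1`; two new marked points -/
def newCrossing (O : Box m) (x : Letter m) : Crossing (O.P ⊕ Bool) :=
  cross x.2 (.inl (O.lower x.1.castSucc)) (.inl (O.lower x.1.succ)) (.inr false) (.inr true)
    (O.up x.1.castSucc) (O.up x.1.succ)

/-- the box above a crossing of the strands at the places `i`, `i + 1` (without this crossing) -/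
def above (O : Box m) (i : Fin m) : Box m where
  P := O.P ⊕ Bool
  fin := by have := O.fin; infer_instance
  arcs := O.arcs.map (Prod.map .inl .inl)
  crossings := O.crossings.map (Crossing.map .inl)
  lower := fun j => if j = i.castSucc then .inr false else if j = i.succ then .inr true
    else .inl (O.lower j)
  upper := fun j => .inl (O.upper j)
  up := fun j => O.up (Equiv.swap i.castSucc i.succ j)

/-- draw the crossing `x` at the lower side of the box -/
def push (O : Box m) (x : Letter m) : Box m :=
  { O.above x.1 with crossings := O.newCrossing x :: O.crossings.map (Crossing.map .inl) }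

/-- draw a braid word, one letter after the other -/
def pushList (O : Box m) (w : List (Letter m)) : Box m := w.foldl push O

end Box

variable {m : ℕ}

/-- the inverse of a braid word -/
def inv (w : List (Letter m)) : List (Letter m) := (w.map fun x => (x.1, !x.2)).reverse

/-- powers of a braid word -/
def wpow (w : List (Letter m)) (n : ℤ) : List (Letter m) :=
  if 0 ≤ n then (List.replicate n.toNat w).flatten else (List.replicate (-n).toNat (inv w)).flatten

/-- The pure braid word `∏ u (σ_i)^{±2} u⁻¹` over the members `(u, (i, ±))` of a list.  (Every pure
braid has such a word.) -/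
def pureWord (b : List (List (Letter m) × Letter m)) : List (Letter m) :=
  b.flatMap fun t => t.1 ++ [t.2, t.2] ++ inv t.1

/-- the permutation of a braid word -/
def perm (w : List (Letter m)) : Equiv.Perm (Fin (m + 1)) :=
  (w.map fun x => Equiv.swap x.1.castSucc x.1.succ).prod

/-- The twist lattice: the box of `O` is filled with `b_1 ^ n_1 b_2 ^ n_2 ⋯ b_k ^ n_k`, where
`b_1, …, b_k` are pure braids. -/
def lattice (O : Box m) {k : ℕ} (b : Fin k → List (List (Letter m) × Letter m)) (n : Fin k → ℤ) :
    Dia :=
  (O.pushList ((List.finRange k).flatMap fun j => wpow (pureWord (b j)) (n j))).close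

/-! ### auxiliary definitions, used in the proofs only -/

/-- if `X` is a link then `Y` is a link with the same invariants -/
def Leads (X Y : Dia) : Prop := X.IsLink → Y.IsLink ∧ ∀ v, Invariant v → v X = v Y

/-- alternating sums over the two signs of some letters of a word -/
def alt (v : Dia → ℤ) : Box m → List (List (Letter m) × Fin m) → List (Letter m) → ℤ
  | O, [], w => v (O.pushList w).close
  | O, t :: S, w => alt v ((O.pushList t.1).push (t.2, true)) S w -
      alt v ((O.pushList t.1).push (t.2, false)) S w

/-- the permutation of an element of the free group -/
def permG : FreeGroup (Fin m) →* Equiv.Perm (Fin (m + 1)) :=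
  FreeGroup.lift fun i => Equiv.swap i.castSucc i.succ

open Classical in
/-- the value of `v` on the link with the pure braid `g` in the box (`0` if `g` is not pure) -/
noncomputable def phi (v : Dia → ℤ) (O : Box m) (g : FreeGroup (Fin m)) : ℤ :=
  if permG g = 1 then v (O.pushList g.toWord).close else 0

/-- alternating sums for `phi` -/
noncomputable def altG (v : Dia → ℤ) (O : Box m) :
    FreeGroup (Fin m) → List (FreeGroup (Fin m) × Fin m) → FreeGroup (Fin m) → ℤ
  | h, [], g => phi v O (h * g)
  | h, t :: S, g => altG v O (h * t.1 * FreeGroup.of t.2) S g -
      altG v O (h * t.1 * (FreeGroup.of t.2)⁻¹) S g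

end Pool.Agent.H867R5.TL
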