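import Pool.Agent.H867R5.TL.Stubs

set_option autoImplicit false

/-! Conclusion: uniform order and algebraic exceptional sets. -/

namespace Pool.Agent.H867R5.TL

open Pool.Agent.H891R2.Jones Pool.Agent.H832R3.VJ MvPolynomial

theorem core (hNOE : S_NOE) (hCNT : S_CNT) (k : ℕ) (X Y : (Fin k → ℤ) → Dia)
    (h : ∀ (d : ℕ) (v : Dia → ℤ), IsVassiliev d v → ∃ p : MvPolynomial (Fin k) ℚ,
      p.totalDegree ≤ d ∧ ∀ x : Fin k → ℤ,
        MvPolynomial.eval (fun j => (x j : ℚ)) p = (v (X x) : ℚ) - v (Y x)) :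
    ∃ N : ℕ,
      (∃ (r : ℕ) (q : Fin r → MvPolynomial (Fin k) ℚ), (∀ i, (q i).totalDegree ≤ N) ∧
        ∀ x : Fin k → ℤ, (∀ d, ¬ Separated d (X x) (Y x)) ↔
          ∀ i, MvPolynomial.eval (fun j => (x j : ℚ)) (q i) = 0) ∧
      (∀ (x : Fin k → ℤ) (d : ℕ), Separated d (X x) (Y x) → Separated N (X x) (Y x)) ∧
      ((∀ (x : Fin k → ℤ) (d : ℕ), ¬ Separated d (X x) (Y x)) ∨
        ∀ M : ℕ, {x : Fin k → ℤ | (∀ j, |x j| ≤ M) ∧ ¬ Separated N (X x) (Y x)}.ncard ≤
          N * (2 * M + 1) ^ (k - 1)) := by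
  classical
  let I : Type 1 := {vd : (Dia → ℤ) × ℕ // IsVassiliev vd.2 vd.1}
  choose P hP1 hP2 using h
  let p : I → MvPolynomial (Fin k) ℚ := fun i => P i.1.2 i.1.1 i.2
  have hp : ∀ (i : I) (x : Fin k → ℤ), MvPolynomial.eval (fun j => (x j : ℚ)) (p i) = 0 ↔
      i.1.1 (X x) = i.1.1 (Y x) := by
    intro i x
    rw [hP2 i.1.2 i.1.1 i.2 x, sub_eq_zero]
    exact_mod_cast Iff.rfl
  obtain ⟨r, q, hq⟩ := hNOE k I p (fun i => i.1.2)
  let N : ℕ := Finset.univ.sup fun i : Fin r => (q i).1.2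
  have hN : ∀ i : Fin r, (q i).1.2 ≤ N := fun i => Finset.le_sup (f := fun i : Fin r => (q i).1.2)
    (Finset.mem_univ i)
  -- not separated at order N implies all equations
  have key : ∀ x : Fin k → ℤ, ¬ Separated N (X x) (Y x) → ∀ i : I,
      MvPolynomial.eval (fun j => (x j : ℚ)) (p i) = 0 := by
    intro x hx
    apply hq
    intro i
    rw [hp]
    by_contra hne
    exact hx ⟨(q i).1.2, hN i, (q i).1.1, (q i).2, hne⟩
  have key2 : ∀ x : Fin k → ℤ, (∀ i : I, MvPolynomial.eval (fun j => (x j : ℚ)) (p i) = 0) →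
      ∀ d, ¬ Separated d (X x) (Y x) := by
    rintro x hx d ⟨n, _, v, hv, hne⟩
    exact hne ((hp ⟨(v, n), hv⟩ x).1 (hx _))
  refine ⟨N, ⟨r, fun i => p (q i), fun i => (hP1 _ _ _).trans (hN i), fun x => ⟨?_, ?_⟩⟩, ?_, ?_⟩
  · intro hx i
    exact key x (hx N) (q i)
  · intro hx
    exact key2 x (hq _ hx)
  · intro x d hd
    by_contra hx
    exact key2 x (key x hx) d hd
  · by_cases h0 : ∀ i : Fin r, p (q i) = 0
    · left
      intro x
      apply key2 x
      apply hq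
      intro i
      rw [h0 i, map_zero]
    · right
      push Not at h0
      obtain ⟨i, hi⟩ := h0
      intro M
      refine le_trans (Set.ncard_le_ncard ?_ ?_) (hCNT k (p (q i)) N M hi
        ((hP1 _ _ _).trans (hN i)))
      · rintro x ⟨hx1, hx2⟩
        exact ⟨hx1, key x hx2 _⟩
      · refine (Set.Finite.pi' (fun _ : Fin k => Set.finite_Icc (-(M : ℤ)) M)).subset ?_
        intro x hx e
        exact abs_le.1 (hx.1 e)

/-- comparison of the links of a twist lattice with a fixed diagram `E` -/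
theorem one (hVAL : S_VAL) (hNOE : S_NOE) (hCNT : S_CNT) (m k : ℕ) (O : Box m)
    (hO : O.close.IsLink) (b : Fin k → List (List (Letter m) × Letter m)) (E : Dia) :
    ∃ N : ℕ,
      (∃ (r : ℕ) (q : Fin r → MvPolynomial (Fin k) ℚ), (∀ i, (q i).totalDegree ≤ N) ∧
        ∀ n : Fin k → ℤ, (∀ d, ¬ Separated d (lattice O b n) E) ↔
          ∀ i, MvPolynomial.eval (fun j => (n j : ℚ)) (q i) = 0) ∧
      (∀ (n : Fin k → ℤ) (d : ℕ), Separated d (lattice O b n) E →
        Separated N (lattice O b n) E) ∧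
      ((∀ (n : Fin k → ℤ) (d : ℕ), ¬ Separated d (lattice O b n) E) ∨
        ∀ M : ℕ, {n : Fin k → ℤ | (∀ j, |n j| ≤ M) ∧ ¬ Separated N (lattice O b n) E}.ncard ≤
          N * (2 * M + 1) ^ (k - 1)) := by
  refine core hNOE hCNT k (fun n => lattice O b n) (fun _ => E) ?_
  intro d v hv
  obtain ⟨p, hp1, hp2⟩ := hVAL m k d v hv O hO b
  refine ⟨p - C ((v E : ℤ) : ℚ), ?_, fun x => ?_⟩
  · exact (totalDegree_sub _ _).trans (max_le hp1 (by rw [totalDegree_C]; exact Nat.zero_le _))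
  · rw [map_sub, hp2 x, eval_C]

/-- comparison of the links of two twist lattices -/
theorem two (hVAL : S_VAL) (hNOE : S_NOE) (hCNT : S_CNT) (m m' k k' : ℕ) (O : Box m)
    (O' : Box m') (hO : O.close.IsLink) (hO' : O'.close.IsLink)
    (b : Fin k → List (List (Letter m) × Letter m))
    (b' : Fin k' → List (List (Letter m') × Letter m')) :
    ∃ N : ℕ,
      (∃ (r : ℕ) (q : Fin r → MvPolynomial (Fin (k + k')) ℚ), (∀ i, (q i).totalDegree ≤ N) ∧
        ∀ x : Fin (k + k') → ℤ, (∀ d, ¬ Separated d (lattice O b (x ∘ Fin.castAdd k'))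
          (lattice O' b' (x ∘ Fin.natAdd k))) ↔
          ∀ i, MvPolynomial.eval (fun j => (x j : ℚ)) (q i) = 0) ∧
      (∀ (x : Fin (k + k') → ℤ) (d : ℕ), Separated d (lattice O b (x ∘ Fin.castAdd k'))
        (lattice O' b' (x ∘ Fin.natAdd k)) → Separated N (lattice O b (x ∘ Fin.castAdd k'))
        (lattice O' b' (x ∘ Fin.natAdd k))) ∧
      ((∀ (x : Fin (k + k') → ℤ) (d : ℕ), ¬ Separated d (lattice O b (x ∘ Fin.castAdd k'))
        (lattice O' b' (x ∘ Fin.natAdd k))) ∨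
        ∀ M : ℕ, {x : Fin (k + k') → ℤ | (∀ j, |x j| ≤ M) ∧
          ¬ Separated N (lattice O b (x ∘ Fin.castAdd k'))
            (lattice O' b' (x ∘ Fin.natAdd k))}.ncard ≤ N * (2 * M + 1) ^ (k + k' - 1)) := by
  refine core hNOE hCNT (k + k') (fun x => lattice O b (x ∘ Fin.castAdd k'))
    (fun x => lattice O' b' (x ∘ Fin.natAdd k)) ?_
  intro d v hv
  obtain ⟨p, hp1, hp2⟩ := hVAL m k d v hv O hO b
  obtain ⟨p', hp1', hp2'⟩ := hVAL m' k' d v hv O' hO' b'
  refine ⟨rename (Fin.castAdd k') p - rename (Fin.natAdd k) p', ?_, fun x => ?_⟩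
  · refine (totalDegree_sub _ _).trans (max_le ?_ ?_)
    · exact (totalDegree_rename_le _ _).trans hp1
    · exact (totalDegree_rename_le _ _).trans hp1'
  · rw [map_sub, eval_rename, eval_rename, ← hp2, ← hp2']
    rfl

end Pool.Agent.H867R5.TL
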