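import Pool.Agent.H867R5.TL.Defs

set_option autoImplicit false

/-! Statements of the steps of the proof. -/

namespace Pool.Agent.H867R5.TL

open Pool.Agent.H891R2.Jones Pool.Agent.H832R3.VJ

/-- change of the order of the lists -/
def S_ORD : Prop := ∀ (P : Type) (hP : Finite P) (A A' : List (P × P)) (C C' : List (Crossing P)),
  A.Perm A' → C.Perm C' → Leads ⟨P, hP, ⟨A, C⟩⟩ ⟨P, hP, ⟨A', C'⟩⟩

/-- another numbering of the points of a crossing -/
def S_TRN : Prop := ∀ (P : Type) (hP : Finite P) (A : List (P × P)) (x : Crossing P)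
  (C : List (Crossing P)), Leads ⟨P, hP, ⟨A, x :: C⟩⟩ ⟨P, hP, ⟨A, turn x :: C⟩⟩

/-- relabelling -/
def S_REL : Prop := ∀ (P Q : Type) (hP : Finite P) (hQ : Finite Q) (e : P ≃ Q) (D : Diagram P),
  Leads ⟨P, hP, D⟩ ⟨Q, hQ, mapD e D⟩

/-- contraction of the arc between `p` and `z`; `g` identifies `p` and `z` and nothing else -/
def S_CON : Prop := ∀ (P P' : Type) (hP : Finite P) (hP' : Finite P') (g : P → P') (p z : P)
  (f : Bool) (A : List (P × P)) (C : List (Crossing P)), p ≠ z → g z = g p →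
  Function.Surjective g → (∀ a b, g a = g b → a = b ∨ (a = p ∧ b = z) ∨ (a = z ∧ b = p)) →
  Leads ⟨P, hP, ⟨arc f p z :: A, C⟩⟩
    ⟨P', hP', ⟨A.map (Prod.map g g), C.map (Crossing.map g)⟩⟩

/-- the second Reidemeister move -/
def S_SEC : Prop := ∀ (P P' : Type) (hP : Finite P) (hP' : Finite P') (g : P' → P) (t u : P)
  (ov f f' : Bool) (x₀ x₁ y₀ y₁ : P') (A : List (P' × P')) (C : List (Crossing P')),
  Function.Injective g → t ≠ u → (∀ a, g a ≠ t) → (∀ a, g a ≠ u) →
  (∀ a, (∃ b, g b = a) ∨ a = t ∨ a = u) →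
  Leads ⟨P, hP, ⟨A.map (Prod.map g g), cross ov (g x₀) (g y₀) t u f f' ::
      cross (!ov) t u (g x₁) (g y₁) f' f :: C.map (Crossing.map g)⟩⟩
    ⟨P', hP', ⟨arc f x₀ x₁ :: arc f' y₀ y₁ :: A, C⟩⟩

/-- `B'` is obtained from `B` by the contraction of an arc between `p` and `z` -/
def ConB {m : ℕ} (B B' : Box m) : Prop := ∃ (g : B.P → B'.P) (p z : B.P) (f : Bool)
  (A : List (B.P × B.P)), B.arcs.Perm (arc f p z :: A) ∧
  B'.arcs.Perm (A.map (Prod.map g g)) ∧ B'.crossings.Perm (B.crossings.map (Crossing.map g)) ∧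
  (∀ j, B'.lower j = g (B.lower j)) ∧ (∀ j, B'.upper j = g (B.upper j)) ∧ B'.up = B.up ∧
  p ≠ z ∧ g z = g p ∧ Function.Surjective g ∧
  (∀ a b, g a = g b → a = b ∨ (a = p ∧ b = z) ∨ (a = z ∧ b = p))

/-- `B'` is obtained from `B` by the second Reidemeister move -/
def SecB {m : ℕ} (B B' : Box m) : Prop := ∃ (g : B'.P → B.P) (t u : B.P) (ov f f' : Bool)
  (x₀ x₁ y₀ y₁ : B'.P) (A : List (B'.P × B'.P)) (C : List (Crossing B'.P)),
  B'.arcs.Perm (arc f x₀ x₁ :: arc f' y₀ y₁ :: A) ∧ B'.crossings.Perm C ∧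
  B.arcs.Perm (A.map (Prod.map g g)) ∧
  B.crossings.Perm (cross ov (g x₀) (g y₀) t u f f' ::
      cross (!ov) t u (g x₁) (g y₁) f' f :: C.map (Crossing.map g)) ∧
  (∀ j, B.lower j = g (B'.lower j)) ∧ (∀ j, B.upper j = g (B'.upper j)) ∧ B.up = B'.up ∧
  Function.Injective g ∧ t ≠ u ∧ (∀ a, g a ≠ t) ∧ (∀ a, g a ≠ u) ∧
  (∀ a, (∃ b, g b = a) ∨ a = t ∨ a = u)

/-- contraction is compatible with drawing a word and closing -/
def S_CNB : Prop := ∀ (m : ℕ) (B B' : Box m), ConB B B' → ∀ w : List (Letter m),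
  Leads (B.pushList w).close (B'.pushList w).close

/-- the same for the second Reidemeister move -/
def S_SCB : Prop := ∀ (m : ℕ) (B B' : Box m), SecB B B' → ∀ w : List (Letter m),
  Leads (B.pushList w).close (B'.pushList w).close

/-- cancellation of two inverse letters -/
def S_R2 : Prop := ∀ (m : ℕ) (O : Box m) (i : Fin m) (s : Bool) (w : List (Letter m)),
  Leads (((O.push (i, s)).push (i, !s)).pushList w).close (O.pushList w).close

/-- a pure braid in the box gives a link -/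
def S_CLO : Prop := ∀ (m : ℕ) (O : Box m), O.close.IsLink → ∀ w : List (Letter m), perm w = 1 →
  (O.pushList w).close.IsLink

/-- alternating sums over `d + 1` letters vanish -/
def S_SNG : Prop := ∀ (m d : ℕ) (v : Dia → ℤ), IsVassiliev d v → ∀ (O : Box m)
  (S : List (List (Letter m) × Fin m)) (w : List (Letter m)), O.close.IsLink →
  S.length = d + 1 → perm (S.flatMap (fun t => t.1 ++ [(t.2, true)]) ++ w) = 1 → alt v O S w = 0

/-- the value on a pure word depends only on the element of the free group -/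
def S_WRD : Prop := ∀ (m : ℕ) (v : Dia → ℤ), Invariant v → ∀ O : Box m, O.close.IsLink →
  ∀ w : List (Letter m), perm w = 1 →
  permG (FreeGroup.mk w) = 1 ∧ v (O.pushList w).close = phi v O (FreeGroup.mk w)

/-- alternating sums in the free group vanish -/
def S_ALG : Prop := ∀ (m d : ℕ) (v : Dia → ℤ), IsVassiliev d v → ∀ O : Box m, O.close.IsLink →
  ∀ (S : List (FreeGroup (Fin m) × Fin m)) (h g : FreeGroup (Fin m)), S.length = d + 1 →
  altG v O h S g = 0

/-- Newton expansion -/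
def S_NEW : Prop := ∀ (G A : Type) [Group G] [Ring A] (ρ : G →* A) (K : Submodule ℤ A) (d : ℕ)
  (L : A →+ ℤ) (k : ℕ) (β : Fin k → G),
  (∀ g a, a ∈ K → ρ g * a ∈ K ∧ a * ρ g ∈ K) → (∀ j, ρ (β j) - 1 ∈ K) →
  (∀ a ∈ K ^ (d + 1), L a = 0) →
  ∃ c : (Fin k → ℕ) → ℤ, ∀ n : Fin k → ℤ,
    L (ρ ((List.finRange k).map fun j => β j ^ n j).prod) =
      ∑ a ∈ Fintype.piFinset (fun _ : Fin k => Finset.range (d + 1)),
        if ∑ j, a j ≤ d then c a * ∏ j, Ring.choose (n j) (a j) else 0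

/-- the ring of the endomorphisms of the functions on the free group, and the translations -/
noncomputable def rho (m : ℕ) : FreeGroup (Fin m) →* Module.End ℤ (FreeGroup (Fin m) → ℤ) where
  toFun g := { toFun := fun φ h => φ (h * g), map_add' := fun _ _ => rfl, map_smul' := fun _ _ => rfl }
  map_one' := by ext φ h; simp
  map_mul' := by intro a b; ext φ h; simp [mul_assoc]

/-- generators of the ideal of differences of crossings -/
def gens (m : ℕ) : Set (Module.End ℤ (FreeGroup (Fin m) → ℤ)) :=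
  {a | ∃ (g h : FreeGroup (Fin m)) (i : Fin m),
    a = rho m g * (rho m (FreeGroup.of i) - rho m (FreeGroup.of i)⁻¹) * rho m h}

/-- evaluation at `phi v O` and `1` -/
noncomputable def ev {m : ℕ} (v : Dia → ℤ) (O : Box m) :
    Module.End ℤ (FreeGroup (Fin m) → ℤ) →+ ℤ where
  toFun a := a (phi v O) 1
  map_zero' := rfl
  map_add' _ _ := rfl

/-- the span of the generators is closed under multiplication by group elements and contains
`ρ(β) - 1` for pure words `β` -/
def S_KER : Prop := ∀ (m : ℕ),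
  (∀ g a, a ∈ Submodule.span ℤ (gens m) → rho m g * a ∈ Submodule.span ℤ (gens m) ∧
    a * rho m g ∈ Submodule.span ℤ (gens m)) ∧
  (∀ b : List (List (Letter m) × Letter m),
    rho m (FreeGroup.mk (pureWord b)) - 1 ∈ Submodule.span ℤ (gens m))

/-- the evaluation vanishes on the power of the ideal -/
def S_VAN : Prop := ∀ (m d : ℕ) (v : Dia → ℤ), IsVassiliev d v → ∀ O : Box m, O.close.IsLink →
  ∀ a ∈ (Submodule.span ℤ (gens m)) ^ (d + 1), ev v O a = 0

/-- the word of a point of the lattice -/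
def S_LAT : Prop := ∀ (m k : ℕ) (b : Fin k → List (List (Letter m) × Letter m)) (n : Fin k → ℤ),
  perm ((List.finRange k).flatMap fun j => wpow (pureWord (b j)) (n j)) = 1 ∧
  FreeGroup.mk ((List.finRange k).flatMap fun j => wpow (pureWord (b j)) (n j)) =
    ((List.finRange k).map fun j => FreeGroup.mk (pureWord (b j)) ^ n j).prod

/-- binomial coefficients are polynomials -/
def S_PLY : Prop := ∀ (k d : ℕ) (c : (Fin k → ℕ) → ℤ), ∃ p : MvPolynomial (Fin k) ℚ,
  p.totalDegree ≤ d ∧ ∀ n : Fin k → ℤ, MvPolynomial.eval (fun j => (n j : ℚ)) p =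
    ((∑ a ∈ Fintype.piFinset (fun _ : Fin k => Finset.range (d + 1)),
        if ∑ j, a j ≤ d then c a * ∏ j, Ring.choose (n j) (a j) else 0 : ℤ) : ℚ)

/-- Vassiliev invariants are polynomials on twist lattices -/
def S_VAL : Prop := ∀ (m k d : ℕ) (v : Dia → ℤ), IsVassiliev d v → ∀ (O : Box m),
  O.close.IsLink → ∀ b : Fin k → List (List (Letter m) × Letter m),
  ∃ p : MvPolynomial (Fin k) ℚ, p.totalDegree ≤ d ∧ ∀ n : Fin k → ℤ,
    MvPolynomial.eval (fun j => (n j : ℚ)) p = (v (lattice O b n) : ℚ)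

/-- finitely many equations suffice -/
def S_NOE : Prop := ∀ (k : ℕ) (I : Type 1) (p : I → MvPolynomial (Fin k) ℚ) (o : I → ℕ),
  ∃ (r : ℕ) (q : Fin r → I), ∀ x : Fin k → ℚ, (∀ i, MvPolynomial.eval x (p (q i)) = 0) →
    ∀ i, MvPolynomial.eval x (p i) = 0

/-- few integer zeros -/
def S_CNT : Prop := ∀ (k : ℕ) (p : MvPolynomial (Fin k) ℚ) (N M : ℕ), p ≠ 0 → p.totalDegree ≤ N →
  {n : Fin k → ℤ | (∀ j, |n j| ≤ M) ∧ MvPolynomial.eval (fun j => (n j : ℚ)) p = 0}.ncard ≤
    N * (2 * M + 1) ^ (k - 1)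

end Pool.Agent.H867R5.TL
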