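import Pool.Agent.H867R5.TL.Stubs

set_option autoImplicit false

/-! Task SNG: alternating sums are values on diagrams with double points. -/

namespace Pool.Agent.H867R5.TL

open Pool.Agent.H891R2.Jones Pool.Agent.H832R3.VJ

namespace TSNG

open Classical

/-- a box with double points; the crossings and double points form multisets -/
structure MB (m : ℕ) : Type 1 where
  P : Type
  fin : Finite P
  arcs : List (P × P)
  C : Multiset (Crossing P)
  l : Multiset (Crossing P)
  lower : Fin (m + 1) → P
  upper : Fin (m + 1) → P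
  up : Fin (m + 1) → Bool

/-- `v` as a function of the multiset of the crossings -/
noncomputable def V (v : Dia → ℤ) {P : Type} (hP : Finite P) (A : List (P × P))
    (C : Multiset (Crossing P)) : ℤ :=
  if Dia.IsLink ⟨P, hP, ⟨A, C.toList⟩⟩ then v ⟨P, hP, ⟨A, C.toList⟩⟩ else 0

/-- resolution of a double point -/
def T {P : Type} (x : Crossing P) (F : Multiset (Crossing P) → ℤ) : Multiset (Crossing P) → ℤ :=
  fun C => F (positive x ::ₘ C) - F (negative x ::ₘ C)

theorem T_comm {P : Type} (x y : Crossing P) (F : Multiset (Crossing P) → ℤ) :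
    T x (T y F) = T y (T x F) := by
  funext C
  simp only [T]
  rw [Multiset.cons_swap (positive y) (positive x), Multiset.cons_swap (negative y) (positive x),
    Multiset.cons_swap (positive y) (negative x), Multiset.cons_swap (negative y) (negative x)]
  ring

instance {P : Type} : LeftCommutative
    (T : Crossing P → (Multiset (Crossing P) → ℤ) → Multiset (Crossing P) → ℤ) :=
  ⟨fun x y F => T_comm x y F⟩

/-- the signed sum over all resolutions -/
def FF {P : Type} (F : Multiset (Crossing P) → ℤ) (l : Multiset (Crossing P)) :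
    Multiset (Crossing P) → ℤ := Multiset.foldr T F l

theorem FF_zero {P : Type} (F : Multiset (Crossing P) → ℤ) : FF F 0 = F := rfl

theorem FF_cons {P : Type} (F : Multiset (Crossing P) → ℤ) (x : Crossing P)
    (l : Multiset (Crossing P)) : FF F (x ::ₘ l) = T x (FF F l) :=
  Multiset.foldr_cons T F x l

theorem turn_turn {P : Type} (x : Crossing P) : turn (turn x) = x := by
  cases x
  simp [turn]

theorem link_perm (hO : S_ORD) {P : Type} (hP : Finite P) (A : List (P × P))
    {C C' : List (Crossing P)} (h : C.Perm C') (hl : Dia.IsLink ⟨P, hP, ⟨A, C⟩⟩) :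
    Dia.IsLink ⟨P, hP, ⟨A, C'⟩⟩ :=
  (hO P hP A A C C' (List.Perm.refl _) h hl).1

theorem toList_perm {P : Type} (cr : List (Crossing P)) :
    ((cr : Multiset (Crossing P)).toList).Perm cr :=
  Multiset.coe_eq_coe.1 (Multiset.coe_toList _)

theorem V1 (hO : S_ORD) (v : Dia → ℤ) (hv : Invariant v) {P : Type} (hP : Finite P)
    (A : List (P × P)) (cr : List (Crossing P)) (h : Dia.IsLink ⟨P, hP, ⟨A, cr⟩⟩) :
    V v hP A (cr : Multiset (Crossing P)) = v ⟨P, hP, ⟨A, cr⟩⟩ := by
  have h1 := hO P hP A A cr _ (List.Perm.refl _) (toList_perm cr).symm h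
  unfold V
  rw [if_pos h1.1]
  exact (h1.2 v hv).symm

theorem V0 (hO : S_ORD) (v : Dia → ℤ) {P : Type} (hP : Finite P)
    (A : List (P × P)) (cr : List (Crossing P)) (h : ¬ Dia.IsLink ⟨P, hP, ⟨A, cr⟩⟩) :
    V v hP A (cr : Multiset (Crossing P)) = 0 := by
  unfold V
  rw [if_neg (fun h1 => h (link_perm hO hP A (toList_perm cr) h1))]

theorem V2 (hO : S_ORD) (hT : S_TRN) (v : Dia → ℤ) (hv : Invariant v) {P : Type} (hP : Finite P)
    (A : List (P × P)) (x : Crossing P) (C : Multiset (Crossing P)) :
    V v hP A (turn x ::ₘ C) = V v hP A (x ::ₘ C) := by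
  induction C using Quotient.inductionOn with
  | _ cr =>
    show V v hP A ((turn x :: cr : List (Crossing P)) : Multiset (Crossing P)) =
      V v hP A ((x :: cr : List (Crossing P)) : Multiset (Crossing P))
    by_cases h : Dia.IsLink ⟨P, hP, ⟨A, x :: cr⟩⟩
    · have h1 := hT P hP A x cr h
      rw [V1 hO v hv hP A _ h, V1 hO v hv hP A _ h1.1]
      exact (h1.2 v hv).symm
    · have h1 : ¬ Dia.IsLink ⟨P, hP, ⟨A, turn x :: cr⟩⟩ := by
        intro h2
        have h3 := (hT P hP A (turn x) cr h2).1
        rw [turn_turn] at h3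
        exact h h3
      rw [V0 hO v hP A _ h, V0 hO v hP A _ h1]

theorem FF_turn {P : Type} (F : Multiset (Crossing P) → ℤ) (x : Crossing P)
    (hF : ∀ C, F (turn x ::ₘ C) = F (x ::ₘ C)) (l : Multiset (Crossing P)) :
    ∀ C, FF F l (turn x ::ₘ C) = FF F l (x ::ₘ C) := by
  induction l using Multiset.induction_on with
  | empty => exact hF
  | cons y l ih =>
    intro C
    rw [FF_cons]
    simp only [T]
    rw [Multiset.cons_swap (positive y) (turn x), Multiset.cons_swap (negative y) (turn x),
      Multiset.cons_swap (positive y) x, Multiset.cons_swap (negative y) x, ih, ih]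

/-- the sign -/
def eps (f g : Bool) : ℤ := if f = g then 1 else -1

theorem T_cross {P : Type} (F : Multiset (Crossing P) → ℤ)
    (hF : ∀ x C, F (turn x ::ₘ C) = F (x ::ₘ C)) (ll lr ul ur : P) (f g : Bool)
    (C : Multiset (Crossing P)) :
    F (cross true ll lr ul ur f g ::ₘ C) - F (cross false ll lr ul ur f g ::ₘ C) =
      eps f g * T (cross true ll lr ul ur f g) F C := by
  have h := hF (cross false ll lr ul ur f g) C
  cases f <;> cases g <;>
    simp [T, eps, positive, negative, Crossing.sign, cross, switch, turn] at h ⊢ <;>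
    linarith

theorem link_switch {P : Type} (hP : Finite P) (A : List (P × P)) (x : Crossing P)
    (C : List (Crossing P)) (h : Dia.IsLink ⟨P, hP, ⟨A, x :: C⟩⟩) :
    Dia.IsLink ⟨P, hP, ⟨A, switch x :: C⟩⟩ := by
  refine ⟨h.1, ?_⟩
  intro p
  obtain ⟨h1, h2⟩ := h.2 p
  have u1 : (if (switch x).underFwd then (switch x).a else (switch x).c) =
      if x.overFwd then x.b else x.d := rfl
  have u2 : (if (switch x).overFwd then (switch x).b else (switch x).d) =
      if x.underFwd then x.a else x.c := by
    show (if (!x.underFwd) = true then x.c else x.a) = _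
    cases x.underFwd <;> rfl
  have u3 : (if (switch x).underFwd then (switch x).c else (switch x).a) =
      if x.overFwd then x.d else x.b := rfl
  have u4 : (if (switch x).overFwd then (switch x).d else (switch x).b) =
      if x.underFwd then x.c else x.a := by
    show (if (!x.underFwd) = true then x.a else x.c) = _
    cases x.underFwd <;> rfl
  simp only [Diagram.starts, Diagram.ends, List.map_cons, List.count_append, List.count_cons]
    at h1 h2 ⊢
  rw [u1, u2, u3, u4]
  constructor <;> omega

theorem link_res {P : Type} (hP : Finite P) (A : List (P × P)) (x : Crossing P)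
    (C : List (Crossing P)) (h : Dia.IsLink ⟨P, hP, ⟨A, x :: C⟩⟩) :
    Dia.IsLink ⟨P, hP, ⟨A, positive x :: C⟩⟩ ∧ Dia.IsLink ⟨P, hP, ⟨A, negative x :: C⟩⟩ := by
  unfold positive negative
  by_cases hs : x.sign = 1
  · rw [if_pos hs, if_pos hs]
    exact ⟨h, link_switch hP A x C h⟩
  · rw [if_neg hs, if_neg hs]
    exact ⟨link_switch hP A x C h, h⟩

theorem sing_FF (hO : S_ORD) (v : Dia → ℤ) (hv : Invariant v) {P : Type} (hP : Finite P)
    (A : List (P × P)) (l : List (Crossing P)) : ∀ cr : List (Crossing P),
    Dia.IsLink ⟨P, hP, ⟨A, l ++ cr⟩⟩ →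
    sing v hP A cr l = FF (V v hP A) (l : Multiset (Crossing P)) (cr : Multiset (Crossing P)) := by
  induction l with
  | nil =>
    intro cr h
    exact (V1 hO v hv hP A cr h).symm
  | cons x l ih =>
    intro cr h
    have h1 := link_res hP A x (l ++ cr) h
    have e : FF (V v hP A) ((x :: l : List (Crossing P)) : Multiset (Crossing P)) =
        T x (FF (V v hP A) (l : Multiset (Crossing P))) :=
      FF_cons (V v hP A) x (l : Multiset (Crossing P))
    rw [e]
    show sing v hP A (positive x :: cr) l - sing v hP A (negative x :: cr) l = _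
    rw [ih (positive x :: cr) (link_perm hO hP A List.perm_middle.symm h1.1),
      ih (negative x :: cr) (link_perm hO hP A List.perm_middle.symm h1.2)]
    rfl

namespace MB

variable {m : ℕ}

/-- the closing arcs -/
def closing (X : MB m) : List (X.P × X.P) :=
  (List.finRange (m + 1)).map (fun j => arc (X.up j) (X.lower j) (X.upper j))

/-- one more crossing -/
def insC (X : MB m) (x : Crossing X.P) : MB m := { X with C := x ::ₘ X.C }

/-- one more double point -/
def insL (X : MB m) (x : Crossing X.P) : MB m := { X with l := x ::ₘ X.l }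

/-- the box above a crossing -/
def above (X : MB m) (i : Fin m) : MB m where
  P := X.P ⊕ Bool
  fin := by have := X.fin; infer_instance
  arcs := X.arcs.map (Prod.map .inl .inl)
  C := X.C.map (Crossing.map .inl)
  l := X.l.map (Crossing.map .inl)
  lower := fun j => if j = i.castSucc then .inr false else if j = i.succ then .inr true
    else .inl (X.lower j)
  upper := fun j => .inl (X.upper j)
  up := fun j => X.up (Equiv.swap i.castSucc i.succ j)

/-- the new crossing -/
def nc (X : MB m) (x : Letter m) : Crossing (X.P ⊕ Bool) :=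
  cross x.2 (.inl (X.lower x.1.castSucc)) (.inl (X.lower x.1.succ)) (.inr false) (.inr true)
    (X.up x.1.castSucc) (X.up x.1.succ)

/-- draw a crossing -/
def push (X : MB m) (x : Letter m) : MB m := (X.above x.1).insC (X.nc x)

/-- draw a double point -/
def pushD (X : MB m) (i : Fin m) : MB m := (X.above i).insL (X.nc (i, true))

/-- draw a word -/
def pushList (X : MB m) (w : List (Letter m)) : MB m := w.foldl push X

/-- the double points as crossings -/
def tot (X : MB m) : MB m := { X with C := X.C + X.l, l := 0 }

/-- the value -/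
noncomputable def evM (v : Dia → ℤ) (X : MB m) : ℤ := FF (V v X.fin (X.closing ++ X.arcs)) X.l X.C

/-- the diagram is a link -/
def LinkM (X : MB m) : Prop :=
  Dia.IsLink ⟨X.P, X.fin, ⟨X.closing ++ X.arcs, (X.C + X.l).toList⟩⟩

end MB

open MB

variable {m : ℕ}

/-- a box as a box with double points -/
def toMB (O : Box m) : MB m := ⟨O.P, O.fin, O.arcs, (O.crossings : Multiset _), 0, O.lower, O.upper,
  O.up⟩

theorem toMB_push (O : Box m) (x : Letter m) : toMB (O.push x) = (toMB O).push x := rfl

theorem toMB_pushList (w : List (Letter m)) : ∀ O : Box m,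
    toMB (O.pushList w) = (toMB O).pushList w := by
  induction w with
  | nil => intro O; rfl
  | cons x w ih =>
    intro O
    show toMB ((O.push x).pushList w) = ((toMB O).push x).pushList w
    rw [ih, toMB_push]

theorem mk_congr {X : MB m} {C C' l l' : Multiset (Crossing X.P)} (h : C = C') (h' : l = l') :
    ({ X with C := C, l := l } : MB m) = { X with C := C', l := l' } := by rw [h, h']

theorem insC_push (X : MB m) (x : Crossing X.P) (y : Letter m) :
    (X.insC x).push y = (X.push y).insC (Crossing.map .inl x) := by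
  refine mk_congr (X := X.push y) (C := X.nc y ::ₘ (x ::ₘ X.C).map (Crossing.map .inl))
    (C' := Crossing.map .inl x ::ₘ (X.push y).C) (l := (X.push y).l) (l' := (X.push y).l) ?_ rfl
  rw [Multiset.map_cons]
  exact Multiset.cons_swap _ _ _

theorem insL_push (X : MB m) (x : Crossing X.P) (y : Letter m) :
    (X.insL x).push y = (X.push y).insL (Crossing.map .inl x) := by
  refine mk_congr (X := X.push y) (C := (X.push y).C) (C' := (X.push y).C)
    (l := (x ::ₘ X.l).map (Crossing.map .inl)) (l' := Crossing.map .inl x ::ₘ (X.push y).l) rfl ?_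
  rw [Multiset.map_cons]
  rfl

theorem tot_push (X : MB m) (y : Letter m) : (X.push y).tot = X.tot.push y := by
  refine mk_congr (X := X.push y) (C := (X.push y).C + (X.push y).l)
    (C' := X.nc y ::ₘ (X.C + X.l).map (Crossing.map .inl)) (l := 0)
    (l' := (0 : Multiset (Crossing X.P)).map (Crossing.map .inl)) ?_ rfl
  rw [Multiset.map_add]
  exact Multiset.cons_add _ _ _

theorem tot_pushD (X : MB m) (i : Fin m) : (X.pushD i).tot = X.tot.push (i, true) := by
  refine mk_congr (X := X.pushD i) (C := (X.pushD i).C + (X.pushD i).l)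
    (C' := X.nc (i, true) ::ₘ (X.C + X.l).map (Crossing.map .inl)) (l := 0)
    (l' := (0 : Multiset (Crossing X.P)).map (Crossing.map .inl)) ?_ rfl
  rw [Multiset.map_add]
  exact Multiset.add_cons _ _ _

theorem tot_pushList (w : List (Letter m)) : ∀ X : MB m,
    (X.pushList w).tot = X.tot.pushList w := by
  induction w with
  | nil => intro X; rfl
  | cons x w ih =>
    intro X
    show ((X.push x).pushList w).tot = (X.tot.push x).pushList w
    rw [ih, tot_push]

theorem tot_toMB (O : Box m) : (toMB O).tot = toMB O :=
  mk_congr (X := toMB O) (C := (toMB O).C + 0) (C' := (toMB O).C) (l := 0) (l' := 0)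
    (add_zero _) rfl

/-- the box with all double points -/
def full : MB m → List (List (Letter m) × Fin m) → List (Letter m) → MB m
  | X, [], w => X.pushList w
  | X, t :: S, w => full ((X.pushList t.1).pushD t.2) S w

theorem pushList_append (X : MB m) (u w : List (Letter m)) :
    X.pushList (u ++ w) = (X.pushList u).pushList w := List.foldl_append

theorem tot_full (S : List (List (Letter m) × Fin m)) (w : List (Letter m)) : ∀ X : MB m,
    (full X S w).tot = X.tot.pushList (S.flatMap (fun t => t.1 ++ [(t.2, true)]) ++ w) := by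
  induction S with
  | nil => intro X; exact tot_pushList w X
  | cons t S ih =>
    intro X
    show (full ((X.pushList t.1).pushD t.2) S w).tot = _
    rw [ih, tot_pushD, tot_pushList, List.flatMap_cons, List.append_assoc,
      pushList_append X.tot (t.1 ++ [(t.2, true)]), pushList_append X.tot t.1]
    rfl

theorem card_pushList (w : List (Letter m)) : ∀ X : MB m,
    Multiset.card (X.pushList w).l = Multiset.card X.l := by
  induction w with
  | nil => intro X; rfl
  | cons x w ih =>
    intro X
    show Multiset.card ((X.push x).pushList w).l = _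
    rw [ih]
    exact Multiset.card_map _ _

theorem card_full (S : List (List (Letter m) × Fin m)) (w : List (Letter m)) : ∀ X : MB m,
    Multiset.card (full X S w).l = Multiset.card X.l + S.length := by
  induction S with
  | nil => intro X; exact card_pushList w X
  | cons t S ih =>
    intro X
    show Multiset.card (full ((X.pushList t.1).pushD t.2) S w).l = _
    have h1 : Multiset.card ((X.pushList t.1).pushD t.2).l = Multiset.card X.l + 1 := by
      show Multiset.card ((X.pushList t.1).nc (t.2, true) ::ₘ
        (X.pushList t.1).l.map (Crossing.map .inl)) = _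
      rw [Multiset.card_cons, Multiset.card_map, card_pushList]
    rw [ih, h1, List.length_cons]
    omega

/-- `a`, `b` have the crossing, `c` the double point -/
def Rel (ε : ℤ) (a b c : MB m) : Prop := ∃ (X : MB m) (ll lr ul ur : X.P) (f g : Bool),
  ε = eps f g ∧ a = X.insC (cross true ll lr ul ur f g) ∧
    b = X.insC (cross false ll lr ul ur f g) ∧ c = X.insL (cross true ll lr ul ur f g)

theorem Rel_push {ε : ℤ} {a b c : MB m} (h : Rel ε a b c) (y : Letter m) :
    Rel ε (a.push y) (b.push y) (c.push y) := by
  obtain ⟨X, ll, lr, ul, ur, f, g, h1, rfl, rfl, rfl⟩ := h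
  refine ⟨X.push y, .inl ll, .inl lr, .inl ul, .inl ur, f, g, h1, ?_, ?_, ?_⟩
  · rw [insC_push]; rfl
  · rw [insC_push]; rfl
  · rw [insL_push]; rfl

theorem Rel_pushList {ε : ℤ} (w : List (Letter m)) : ∀ {a b c : MB m}, Rel ε a b c →
    Rel ε (a.pushList w) (b.pushList w) (c.pushList w) := by
  induction w with
  | nil => intro a b c h; exact h
  | cons x w ih => intro a b c h; exact ih (Rel_push h x)

theorem Rel_ev (hO : S_ORD) (hT : S_TRN) (v : Dia → ℤ) (hv : Invariant v) {ε : ℤ} {a b c : MB m}
    (h : Rel ε a b c) : evM v a - evM v b = ε * evM v c := by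
  obtain ⟨X, ll, lr, ul, ur, f, g, h1, rfl, rfl, rfl⟩ := h
  have h2 := T_cross (FF (V v X.fin (X.closing ++ X.arcs)) X.l) (fun x C =>
    FF_turn _ x (fun C => V2 hO hT v hv X.fin _ x C) X.l C) ll lr ul ur f g X.C
  have h3 : evM v (X.insL (cross true ll lr ul ur f g)) =
      T (cross true ll lr ul ur f g) (FF (V v X.fin (X.closing ++ X.arcs)) X.l) X.C := by
    show FF (V v X.fin (X.closing ++ X.arcs)) (cross true ll lr ul ur f g ::ₘ X.l) X.C = _
    rw [FF_cons]
  rw [h1, h3]
  exact h2

/-- alternating sums -/
noncomputable def altM (v : Dia → ℤ) :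
    MB m → List (List (Letter m) × Fin m) → List (Letter m) → ℤ
  | X, [], w => evM v (X.pushList w)
  | X, t :: S, w => altM v ((X.pushList t.1).push (t.2, true)) S w -
      altM v ((X.pushList t.1).push (t.2, false)) S w

theorem Rel_alt (hO : S_ORD) (hT : S_TRN) (v : Dia → ℤ) (hv : Invariant v) {ε : ℤ}
    (S : List (List (Letter m) × Fin m)) (w : List (Letter m)) : ∀ {a b c : MB m}, Rel ε a b c →
    altM v a S w - altM v b S w = ε * altM v c S w := by
  induction S with
  | nil => intro a b c h; exact Rel_ev hO hT v hv (Rel_pushList w h)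
  | cons t S ih =>
    intro a b c h
    have h1 := ih (Rel_push (Rel_pushList t.1 h) (t.2, true))
    have h2 := ih (Rel_push (Rel_pushList t.1 h) (t.2, false))
    simp only [altM]
    linarith

theorem alt_full (hO : S_ORD) (hT : S_TRN) (v : Dia → ℤ) (hv : Invariant v)
    (S : List (List (Letter m) × Fin m)) (w : List (Letter m)) : ∀ X : MB m,
    ∃ ε : ℤ, altM v X S w = ε * evM v (full X S w) := by
  induction S with
  | nil => intro X; exact ⟨1, (one_mul _).symm⟩
  | cons t S ih =>
    intro X
    obtain ⟨ε, hε⟩ := ih ((X.pushList t.1).pushD t.2)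
    have h1 : Rel (eps ((X.pushList t.1).up t.2.castSucc) ((X.pushList t.1).up t.2.succ))
        ((X.pushList t.1).push (t.2, true)) ((X.pushList t.1).push (t.2, false))
        ((X.pushList t.1).pushD t.2) :=
      ⟨(X.pushList t.1).above t.2, _, _, _, _, _, _, rfl, rfl, rfl, rfl⟩
    have h2 := Rel_alt hO hT v hv S w h1
    refine ⟨eps ((X.pushList t.1).up t.2.castSucc) ((X.pushList t.1).up t.2.succ) * ε, ?_⟩
    show altM v ((X.pushList t.1).push (t.2, true)) S w -
      altM v ((X.pushList t.1).push (t.2, false)) S w = _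
    rw [h2, hε, mul_assoc]
    rfl

theorem boxPushList_append (O : Box m) (u w : List (Letter m)) :
    O.pushList (u ++ w) = (O.pushList u).pushList w := List.foldl_append

theorem perm_append (u w : List (Letter m)) : perm (u ++ w) = perm u * perm w := by
  simp [perm]

theorem alt_altM (hO : S_ORD) (hC : S_CLO) (v : Dia → ℤ) (hv : Invariant v)
    (S : List (List (Letter m) × Fin m)) (w : List (Letter m)) (O : Box m)
    (hOl : O.close.IsLink) : ∀ u : List (Letter m),
    perm (u ++ (S.flatMap (fun t => t.1 ++ [(t.2, true)]) ++ w)) = 1 →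
    alt v (O.pushList u) S w = altM v (toMB (O.pushList u)) S w := by
  induction S with
  | nil =>
    intro u hu
    have h1 : ((O.pushList u).pushList w).close.IsLink := by
      rw [← boxPushList_append]
      exact hC m O hOl _ hu
    show v ((O.pushList u).pushList w).close = evM v ((toMB (O.pushList u)).pushList w)
    rw [← toMB_pushList]
    exact (V1 hO v hv _ _ _ h1).symm
  | cons t S ih =>
    intro u hu
    have h1 : ∀ s : Bool, alt v (((O.pushList u).pushList t.1).push (t.2, s)) S w =
        altM v (((toMB (O.pushList u)).pushList t.1).push (t.2, s)) S w := by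
      intro s
      have e1 : ((O.pushList u).pushList t.1).push (t.2, s) =
          O.pushList (u ++ (t.1 ++ [(t.2, s)])) := by
        rw [boxPushList_append, boxPushList_append]
        rfl
      have e2 : ((toMB (O.pushList u)).pushList t.1).push (t.2, s) =
          toMB (O.pushList (u ++ (t.1 ++ [(t.2, s)]))) := by
        rw [← toMB_pushList, ← toMB_push, e1]
      rw [e1, e2]
      apply ih
      rw [← hu]
      have e3 : perm [(t.2, s)] = perm [(t.2, true)] := rfl
      simp only [perm_append, List.flatMap_cons, e3, mul_assoc]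
    show alt v (((O.pushList u).pushList t.1).push (t.2, true)) S w -
      alt v (((O.pushList u).pushList t.1).push (t.2, false)) S w = _
    rw [h1, h1]
    rfl

theorem ev_full_zero (hO : S_ORD) (hC : S_CLO) (d : ℕ) (v : Dia → ℤ) (hv : IsVassiliev d v)
    (S : List (List (Letter m) × Fin m)) (w : List (Letter m)) (O : Box m)
    (hOl : O.close.IsLink) (hS : S.length = d + 1)
    (hp : perm (S.flatMap (fun t => t.1 ++ [(t.2, true)]) ++ w) = 1) :
    evM v (full (toMB O) S w) = 0 := by
  set Y := full (toMB O) S w with hY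
  set W := S.flatMap (fun t => t.1 ++ [(t.2, true)]) ++ w with hW
  have h1 : (O.pushList W).close.IsLink := hC m O hOl W hp
  have h2 : LinkM (toMB (O.pushList W)) := by
    show Dia.IsLink ⟨(O.pushList W).P, (O.pushList W).fin,
      ⟨(O.pushList W).closing ++ (O.pushList W).arcs,
        (((O.pushList W).crossings : Multiset (Crossing (O.pushList W).P)) + 0).toList⟩⟩
    rw [add_zero]
    exact link_perm hO _ _ (toList_perm _).symm h1
  have h3 : Y.tot = toMB (O.pushList W) := by
    rw [hY, tot_full, toMB_pushList, tot_toMB]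
  have h4 : LinkM Y.tot := by rw [h3]; exact h2
  have h5 : Dia.IsLink ⟨Y.P, Y.fin, ⟨Y.closing ++ Y.arcs, Y.l.toList ++ Y.C.toList⟩⟩ := by
    have h4' : Dia.IsLink ⟨Y.P, Y.fin, ⟨Y.closing ++ Y.arcs, (Y.C + Y.l + 0).toList⟩⟩ := h4
    rw [add_zero] at h4'
    refine link_perm hO _ _ ?_ h4'
    rw [← Multiset.coe_eq_coe, Multiset.coe_toList, ← Multiset.coe_add, Multiset.coe_toList,
      Multiset.coe_toList, add_comm]
  have h6 := sing_FF hO v hv.1 Y.fin (Y.closing ++ Y.arcs) Y.l.toList Y.C.toList h5
  rw [Multiset.coe_toList, Multiset.coe_toList] at h6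
  have h7 : Y.l.toList.length = d + 1 := by
    rw [Multiset.length_toList, hY, card_full, hS]
    show Multiset.card (0 : Multiset (Crossing O.P)) + _ = _
    rw [Multiset.card_zero, zero_add]
  have h8 := hv.2 Y.P Y.fin (Y.closing ++ Y.arcs) Y.C.toList Y.l.toList h7 h5
  exact h6.symm.trans h8

end TSNG

open TSNG in
theorem t_SNG (hO : S_ORD) (hT : S_TRN) (hC : S_CLO) : S_SNG := by
  intro m d v hv O S w hOl hS hp
  have h1 := alt_altM hO hC v hv.1 S w O hOl [] hp
  obtain ⟨ε, hε⟩ := alt_full hO hT v hv.1 S w (toMB O)
  have h2 := ev_full_zero hO hC d v hv S w O hOl hS hp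
  have h3 : alt v O S w = altM v (toMB O) S w := h1
  rw [h3, hε, h2, mul_zero]

end Pool.Agent.H867R5.TL
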