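import Pool.Agent.H867R5.TL.All

/-!
# Vassiliev invariants on twist lattices

`Pool.Agent.H867R5.TL.Defs` contains the definitions:

* `Box m`: the part of an oriented link diagram outside a box through which `m + 1` strands run
  (planarity is not required); `O.close`: the box is filled with vertical strands;
* `Letter m`: `(i, s)` is the crossing of the strands at the places `i`, `i + 1` (over-strand from the
  lower left if `s`), `(i, !s)` is its inverse; `inv`, `wpow w n`: inverses and integer powers of
  braid words; `pureWord b`: the product of the words `u x x u⁻¹` over the members `(u, x)` of the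
  list `b`, `x` a letter (every pure braid has such a word);
* `lattice O b n`: the box of `O` filled with the pure braid `b_1 ^ n_1 ⋯ b_k ^ n_k`.

Diagrams, moves and Vassiliev invariants are in `Pool.Agent.H832R3.VJ.Defs` and
`Pool.Agent.H891R2.Jones.Diagram`: `Dia`: an oriented diagram with the finite set of its marked
points; `Dia.IsLink`; `Move`: relabelling, subdivision of strands and the Reidemeister moves; `sing`:
extension to diagrams with double points by the Vassiliev skein relation; `IsVassiliev n v`: `v` is
an invariant of oriented links of order at most `n`; `Separated d X Y`: some integer valued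
Vassiliev invariant of order at most `d` has different values on `X` and `Y`.
-/

set_option autoImplicit false

namespace Pool.Agent.H867R5.TL.TwistLattices

open Pool.Agent.H832R3.VJ Pool.Agent.H867R5.TL

/-- Let `K(n) = lattice O b n`, `n ∈ ℤ^k`, and `K'(n') = lattice O' b' n'`, `n' ∈ ℤ^k'`, be two
families of oriented links, each obtained by filling the box of a diagram with powers
`b_1 ^ n_1 ⋯ b_k ^ n_k` of pure braids (`x = (n, n') ∈ ℤ^(k + k')`).  There is an `N` such that

* if some Vassiliev invariant separates `K(n)` from `K'(n')`, then one of order at most `N` does;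
* the set of the pairs `(n, n')` for which no Vassiliev invariant separates `K(n)` from `K'(n')` is
  the set of the integer solutions of finitely many polynomial equations of degree at most `N`;
* either it contains all pairs, or at most `N (2 M + 1)^(k + k' - 1)` of the `(2 M + 1)^(k + k')`
  pairs with coordinates of absolute value at most `M`, for every `M`. -/
theorem result (m m' k k' : ℕ) (O : Box m) (O' : Box m') (hO : O.close.IsLink)
    (hO' : O'.close.IsLink) (b : Fin k → List (List (Letter m) × Letter m))
    (b' : Fin k' → List (List (Letter m') × Letter m')) :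
    ∃ N : ℕ,
      (∃ (r : ℕ) (q : Fin r → MvPolynomial (Fin (k + k')) ℚ), (∀ i, (q i).totalDegree ≤ N) ∧
        ∀ x : Fin (k + k') → ℤ, (∀ d, ¬ Separated d (lattice O b (x ∘ Fin.castAdd k'))
          (lattice O' b' (x ∘ Fin.natAdd k))) ↔
          ∀ i, MvPolynomial.eval (fun j => (x j : ℚ)) (q i) = 0) ∧
      (∀ (x : Fin (k + k') → ℤ) (d : ℕ), Separated d (lattice O b (x ∘ Fin.castAdd k'))
        (lattice O' b' (x ∘ Fin.natAdd k)) → Separated N (lattice O b (x ∘ Fin.castAdd k'))
        (lattice O' b' (x ∘ Fin.natAdd k))) ∧
      ((∀ (x : Fin (k + k') → ℤ) (d : ℕ), ¬ Separated d (lattice O b (x ∘ Fin.castAdd k'))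
        (lattice O' b' (x ∘ Fin.natAdd k))) ∨
        ∀ M : ℕ, {x : Fin (k + k') → ℤ | (∀ j, |x j| ≤ M) ∧
          ¬ Separated N (lattice O b (x ∘ Fin.castAdd k'))
            (lattice O' b' (x ∘ Fin.natAdd k))}.ncard ≤ N * (2 * M + 1) ^ (k + k' - 1)) :=
  two a_VAL t_NOE t_CNT m m' k k' O O' hO hO' b b'

end Pool.Agent.H867R5.TL.TwistLattices
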